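import Mathlib

/-!
# `𝒢`-adic sequences, the sets `A_𝒢(W)` and sums with prescribed parts
-/

open Finset

namespace R730.Gad

/-- A `𝒢`-adic sequence: strictly increasing positive integers with `g 0 = 1` and
`g i ∣ g (i+1)`. -/
structure IsGAdic (g : ℕ → ℕ) : Prop where
  zero : g 0 = 1
  mono : StrictMono g
  dvd : ∀ i, g i ∣ g (i + 1)

/-- `A_𝒢(W)`: the sums `∑_{j ∈ F} x_j g_j` over nonempty finite `F ⊆ W`
with `1 ≤ x_j ≤ d_{j+1} - 1`, where `d_{j+1} = g_{j+1} / g_j`. -/
def AG (g : ℕ → ℕ) (W : Set ℕ) : Set ℕ :=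
  {n | ∃ (F : Finset ℕ) (x : ℕ → ℕ), F.Nonempty ∧
    (∀ j ∈ F, j ∈ W ∧ 1 ≤ x j ∧ x j ≤ g (j + 1) / g j - 1) ∧ n = ∑ j ∈ F, x j * g j}

open Classical in
/-- The total weight `∑_{j < J, j ∈ V} (g_{j+1} - g_j)`, the largest number below `g_J` all of
whose digits are supported in `V`. -/
noncomputable def wt (g : ℕ → ℕ) (V : Set ℕ) (J : ℕ) : ℕ :=
  ∑ j ∈ range J, if j ∈ V then g (j + 1) - g j else 0

/-- All digits of `n` outside `V` vanish. -/
def Dig (g : ℕ → ℕ) (V : Set ℕ) (n : ℕ) : Prop := ∀ J, J ∉ V → n % g (J + 1) = n % g J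

variable {g : ℕ → ℕ}

theorem IsGAdic.pos (hg : IsGAdic g) (j : ℕ) : 0 < g j := by
  have h0 : g 0 ≤ g j := hg.mono.monotone (Nat.zero_le j)
  have := hg.zero
  omega

theorem IsGAdic.dvd_of_le (hg : IsGAdic g) {i j : ℕ} (h : i ≤ j) : g i ∣ g j := by
  induction j, h using Nat.le_induction with
  | base => exact dvd_rfl
  | succ n _ ih => exact ih.trans (hg.dvd n)

theorem IsGAdic.lt_succ (hg : IsGAdic g) (j : ℕ) : g j < g (j + 1) := hg.mono (Nat.lt_succ_self j)

theorem IsGAdic.digmul (hg : IsGAdic g) (j : ℕ) :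
    (g (j + 1) / g j - 1) * g j = g (j + 1) - g j := by
  rw [Nat.sub_mul, Nat.div_mul_cancel (hg.dvd j), one_mul]

theorem IsGAdic.self_le (hg : IsGAdic g) (n : ℕ) : n < g n := by
  induction n with
  | zero => exact hg.pos 0
  | succ k ih => have := hg.lt_succ k; omega

theorem mod_mod_g (hg : IsGAdic g) {i j : ℕ} (h : i ≤ j) (n : ℕ) : n % g j % g i = n % g i :=
  Nat.mod_mod_of_dvd n (hg.dvd_of_le h)

theorem wt_zero (V : Set ℕ) : wt g V 0 = 0 := by simp [wt]

theorem wt_succ_mem {V : Set ℕ} {J : ℕ} (h : J ∈ V) :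
    wt g V (J + 1) = wt g V J + (g (J + 1) - g J) := by
  classical
  simp [wt, Finset.sum_range_succ, h]

theorem wt_succ_not_mem {V : Set ℕ} {J : ℕ} (h : J ∉ V) :
    wt g V (J + 1) = wt g V J := by
  classical
  simp [wt, Finset.sum_range_succ, h]

theorem wt_mono (V : Set ℕ) : Monotone (wt g V) := by
  apply monotone_nat_of_le_succ
  intro J
  by_cases h : J ∈ V
  · rw [wt_succ_mem h]; exact Nat.le_add_right _ _
  · rw [wt_succ_not_mem h]

theorem wt_compl (hg : IsGAdic g) (V : Set ℕ) (J : ℕ) : wt g V J + wt g Vᶜ J + 1 = g J := by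
  induction J with
  | zero => rw [wt_zero, wt_zero, hg.zero]
  | succ k ih =>
    have hl := hg.lt_succ k
    by_cases h : k ∈ V
    · rw [wt_succ_mem h, wt_succ_not_mem (V := Vᶜ) (by simpa using h)]; omega
    · rw [wt_succ_not_mem h, wt_succ_mem (V := Vᶜ) h]; omega

theorem wt_lt (hg : IsGAdic g) (V : Set ℕ) (J : ℕ) : wt g V J < g J := by
  have := wt_compl hg V J; omega

/-- The digit step. -/
theorem mod_succ_le (hg : IsGAdic g) (n J : ℕ) :
    n % g (J + 1) ≤ n % g J + (g (J + 1) - g J) := by
  have h1 : n % g (J + 1) < g (J + 1) := Nat.mod_lt _ (hg.pos _)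
  have h2 := Nat.div_add_mod (n % g (J + 1)) (g J)
  rw [mod_mod_g hg (Nat.le_succ J)] at h2
  obtain ⟨d, hd⟩ := hg.dvd J
  have h3 : n % g (J + 1) / g J < d := by
    rw [Nat.div_lt_iff_lt_mul (hg.pos J)]
    rw [hd] at h1 ⊢
    calc _ < g J * d := h1
      _ = d * g J := mul_comm _ _
  have h4 : g J * (n % g (J + 1) / g J) ≤ g J * (d - 1) := Nat.mul_le_mul_left _ (by omega)
  have h5 : g J * (d - 1) = g (J + 1) - g J := by
    rw [hd, Nat.mul_sub, mul_one]
  omega

theorem Dig.mod_le (hg : IsGAdic g) {V : Set ℕ} {b : ℕ} (hb : Dig g V b) (J : ℕ) :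
    b % g J ≤ wt g V J := by
  induction J with
  | zero => rw [hg.zero, Nat.mod_one]; exact Nat.zero_le _
  | succ k ih =>
    by_cases h : k ∈ V
    · rw [wt_succ_mem h]
      have := mod_succ_le hg b k
      omega
    · rw [wt_succ_not_mem h, hb k h]; exact ih

/-- Sums `∑ s_j g_j` with legal digits: the residues are the partial sums. -/
theorem sum_mod (hg : IsGAdic g) (s : ℕ → ℕ) (hs : ∀ j, s j ≤ g (j + 1) / g j - 1) (K J : ℕ) :
    (∑ j ∈ range K, s j * g j) % g J = ∑ j ∈ range (min J K), s j * g j := by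
  have hlt : ∀ m, ∑ j ∈ range m, s j * g j < g m := by
    intro m
    induction m with
    | zero => simp [hg.pos]
    | succ k ih =>
      rw [Finset.sum_range_succ]
      have h1 : s k * g k ≤ (g (k + 1) / g k - 1) * g k := Nat.mul_le_mul_right _ (hs k)
      rw [hg.digmul] at h1
      have := hg.lt_succ k
      omega
  rcases le_total K J with h | h
  · rw [min_eq_right h, Nat.mod_eq_of_lt]
    exact (hlt K).trans_le (hg.mono.monotone h)
  · rw [min_eq_left h]
    have h2 : ∑ j ∈ range K, s j * g j = ∑ j ∈ range J, s j * g j + ∑ j ∈ Ico J K, s j * g j := by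
      rw [Finset.sum_range_add_sum_Ico _ h]
    have h3 : g J ∣ ∑ j ∈ Ico J K, s j * g j := by
      apply Finset.dvd_sum
      intro j hj
      exact (hg.dvd_of_le (Finset.mem_Ico.1 hj).1).mul_left _
    obtain ⟨t, ht⟩ := h3
    rw [h2, ht, Nat.add_mul_mod_self_left, Nat.mod_eq_of_lt (hlt J)]

theorem dig_sum (hg : IsGAdic g) {V : Set ℕ} (s : ℕ → ℕ) (hs : ∀ j, s j ≤ g (j + 1) / g j - 1)
    (hV : ∀ j, j ∉ V → s j = 0) (K : ℕ) : Dig g V (∑ j ∈ range K, s j * g j) := by
  intro J hJ
  rw [sum_mod hg s hs, sum_mod hg s hs]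
  rcases le_or_gt K J with h | h
  · rw [min_eq_right h, min_eq_right (h.trans (Nat.le_succ J))]
  · rw [min_eq_left h.le, min_eq_left (by omega : J + 1 ≤ K), Finset.sum_range_succ, hV J hJ]
    simp

theorem dig_zero (V : Set ℕ) : Dig g V 0 := by
  intro J _
  simp

/-- The digit expansion. -/
theorem mod_eq_sum (hg : IsGAdic g) (n K : ℕ) :
    n % g K = ∑ j ∈ range K, (n % g (j + 1) / g j) * g j := by
  induction K with
  | zero => simp [hg.zero, Nat.mod_one]
  | succ k ih =>
    rw [Finset.sum_range_succ, ← ih]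
    have h2 := Nat.div_add_mod (n % g (k + 1)) (g k)
    rw [mod_mod_g hg (Nat.le_succ k)] at h2
    rw [mul_comm (n % g (k + 1) / g k) (g k)]
    omega

theorem digit_le (hg : IsGAdic g) (n j : ℕ) : n % g (j + 1) / g j ≤ g (j + 1) / g j - 1 := by
  have h1 : n % g (j + 1) < g (j + 1) := Nat.mod_lt _ (hg.pos _)
  have h3 : n % g (j + 1) / g j < g (j + 1) / g j := by
    rw [Nat.div_lt_iff_lt_mul (hg.pos j), Nat.div_mul_cancel (hg.dvd j)]
    exact h1
  omega

theorem mem_AG_iff (hg : IsGAdic g) (V : Set ℕ) (n : ℕ) : n ∈ AG g V ↔ n ≠ 0 ∧ Dig g V n := by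
  classical
  constructor
  · rintro ⟨F, x, hF, hx, rfl⟩
    constructor
    · obtain ⟨j, hj⟩ := hF
      have h1 : 0 < x j * g j := Nat.mul_pos (hx j hj).2.1 (hg.pos j)
      have h2 : x j * g j ≤ ∑ j ∈ F, x j * g j :=
        Finset.single_le_sum (f := fun j => x j * g j) (fun _ _ => Nat.zero_le _) hj
      omega
    · have h1 : ∑ j ∈ F, x j * g j
          = ∑ j ∈ range (F.sup id + 1), (if j ∈ F then x j else 0) * g j := by
        have h2 : ∀ j ∈ range (F.sup id + 1), (if j ∈ F then x j else 0) * g j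
            = if j ∈ F then x j * g j else 0 := by
          intro j _; split_ifs <;> simp
        rw [Finset.sum_congr rfl h2, ← Finset.sum_filter]
        apply Finset.sum_congr _ (fun _ _ => rfl)
        ext j
        simp only [Finset.mem_filter, Finset.mem_range]
        constructor
        · intro hj
          exact ⟨Nat.lt_succ_of_le (Finset.le_sup (f := id) hj), hj⟩
        · intro hj; exact hj.2
      rw [h1]
      apply dig_sum hg
      · intro j
        split_ifs with hj
        · exact (hx j hj).2.2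
        · exact Nat.zero_le _
      · intro j hj
        rw [if_neg]
        intro hjF
        exact hj (hx j hjF).1
  · rintro ⟨h0, hd⟩
    have hn : n % g n = n := Nat.mod_eq_of_lt (hg.self_le n)
    have hs := mod_eq_sum hg n n
    rw [hn] at hs
    refine ⟨(range n).filter (fun j => n % g (j + 1) / g j ≠ 0), fun j => n % g (j + 1) / g j,
      ?_, ?_, ?_⟩
    · rw [Finset.nonempty_iff_ne_empty]
      intro hemp
      apply h0
      rw [hs]
      apply Finset.sum_eq_zero
      intro j hj
      by_contra hne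
      have : j ∈ (range n).filter (fun j => n % g (j + 1) / g j ≠ 0) := by
        rw [Finset.mem_filter]
        exact ⟨hj, fun h => hne (by rw [h, zero_mul])⟩
      rw [hemp] at this
      simp at this
    · intro j hj
      rw [Finset.mem_filter] at hj
      refine ⟨?_, Nat.one_le_iff_ne_zero.2 hj.2, digit_le hg n j⟩
      by_contra hjV
      apply hj.2
      rw [hd j hjV, Nat.div_eq_of_lt (Nat.mod_lt _ (hg.pos j))]
    · rw [Finset.sum_filter]
      conv_lhs => rw [hs]
      apply Finset.sum_congr rfl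
      intro j _
      split_ifs with h
      · rfl
      · push Not at h
        rw [h, zero_mul]

/-- Greedy representation with capacities. -/
theorem coin (hg : IsGAdic g) (u : ℕ → ℕ) : ∀ J n, n ≤ ∑ j ∈ range J, u j * g j →
    (∀ j < J, n % g j ≤ ∑ i ∈ range j, u i * g i) →
    ∃ s : ℕ → ℕ, (∀ j, s j ≤ u j) ∧ n = ∑ j ∈ range J, s j * g j := by
  classical
  intro J
  induction J with
  | zero =>
    intro n hn _
    refine ⟨fun _ => 0, fun _ => Nat.zero_le _, ?_⟩
    simpa using hn
  | succ k ih =>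
    intro n hn hmod
    rw [Finset.sum_range_succ] at hn
    have hkey : ∃ q, q ≤ u k ∧ q * g k ≤ n ∧ n - q * g k ≤ ∑ j ∈ range k, u j * g j := by
      by_cases hq : n / g k ≤ u k
      · refine ⟨n / g k, hq, Nat.div_mul_le_self _ _, ?_⟩
        have h1 := Nat.div_add_mod n (g k)
        have h2 := hmod k (Nat.lt_succ_self k)
        rw [mul_comm] at h1
        omega
      · refine ⟨u k, le_rfl, ?_, by omega⟩
        push Not at hq
        calc u k * g k ≤ (n / g k) * g k := Nat.mul_le_mul_right _ hq.le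
          _ ≤ n := Nat.div_mul_le_self _ _
    obtain ⟨q, hqu, hqn, hrest⟩ := hkey
    obtain ⟨s, hs, hsum⟩ := ih (n - q * g k) hrest (by
      intro j hj
      have h1 : (n - q * g k) % g j = n % g j := by
        obtain ⟨t, ht⟩ := hg.dvd_of_le hj.le
        have h2 : n = (n - q * g k) + g j * (q * t) := by
          have : q * g k = g j * (q * t) := by rw [ht]; ring
          omega
        conv_rhs => rw [h2]
        rw [Nat.add_mul_mod_self_left]
      rw [h1]
      exact hmod j (by omega))
    refine ⟨Function.update s k q, ?_, ?_⟩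
    · intro j
      by_cases hj : j = k
      · subst hj; simpa using hqu
      · rw [Function.update_of_ne hj]; exact hs j
    · rw [Finset.sum_range_succ, Function.update_self]
      have h3 : ∑ j ∈ range k, Function.update s k q j * g j = ∑ j ∈ range k, s j * g j := by
        apply Finset.sum_congr rfl
        intro j hj
        rw [Function.update_of_ne (Finset.mem_range.1 hj).ne]
      rw [h3, ← hsum]
      omega

theorem split_le {ι : Type*} (S : Finset ι) (e : ι → ℕ) :
    ∀ s, s ≤ ∑ l ∈ S, e l → ∃ x : ι → ℕ, (∀ l, x l ≤ e l) ∧ ∑ l ∈ S, x l = s := by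
  classical
  induction S using Finset.induction_on with
  | empty =>
    intro s hs
    refine ⟨fun _ => 0, fun _ => Nat.zero_le _, ?_⟩
    simp at hs
    simp [hs]
  | insert a S ha ih =>
    intro s hs
    rw [Finset.sum_insert ha] at hs
    obtain ⟨x, hx, hsum⟩ := ih (s - min s (e a)) (by omega)
    refine ⟨Function.update x a (min s (e a)), ?_, ?_⟩
    · intro l
      by_cases hl : l = a
      · subst hl; simp
      · rw [Function.update_of_ne hl]; exact hx l
    · rw [Finset.sum_insert ha, Function.update_self]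
      have h3 : ∑ l ∈ S, Function.update x a (min s (e a)) l = ∑ l ∈ S, x l := by
        apply Finset.sum_congr rfl
        intro l hl
        rw [Function.update_of_ne]
        rintro rfl
        exact ha hl
      rw [h3, hsum]
      omega

theorem mod_sum_le {ι : Type*} (S : Finset ι) (b : ι → ℕ) (N : ℕ) :
    (∑ l ∈ S, b l) % N ≤ ∑ l ∈ S, b l % N := by
  classical
  induction S using Finset.induction_on with
  | empty => simp
  | insert a S ha ih =>
    rw [Finset.sum_insert ha, Finset.sum_insert ha, Nat.add_mod]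
    calc _ ≤ b a % N + (∑ l ∈ S, b l) % N := Nat.mod_le _ _
      _ ≤ _ := by omega

/-- **The representation criterion.**  `n` is a sum of numbers `b_l` whose digits are supported in
`V_l` iff `n mod g_J ≤ ∑_l wt(V_l, J)` for all `J`. -/
theorem rep_iff (hg : IsGAdic g) {ι : Type*} [Fintype ι] (V : ι → Set ℕ) (n : ℕ) :
    (∃ b : ι → ℕ, (∀ l, Dig g (V l) (b l)) ∧ n = ∑ l, b l) ↔
      ∀ J, n % g J ≤ ∑ l, wt g (V l) J := by
  classical
  constructor
  · rintro ⟨b, hb, rfl⟩ J
    exact (mod_sum_le _ _ _).trans (Finset.sum_le_sum fun l _ => (hb l).mod_le hg J)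
  · intro hJ
    set u : ℕ → ℕ := fun j => ∑ l : ι, if j ∈ V l then g (j + 1) / g j - 1 else 0 with hu
    have hU : ∀ J, ∑ j ∈ range J, u j * g j = ∑ l, wt g (V l) J := by
      intro J
      simp only [hu, wt, Finset.sum_mul]
      rw [Finset.sum_comm]
      apply Finset.sum_congr rfl
      intro l _
      apply Finset.sum_congr rfl
      intro j _
      split_ifs
      · exact hg.digmul j
      · simp
    have hn : n % g n = n := Nat.mod_eq_of_lt (hg.self_le n)
    obtain ⟨s, hs, hsum⟩ := coin hg u n n (by rw [hU]; have := hJ n; rwa [hn] at this)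
      (fun j _ => by rw [hU]; exact hJ j)
    choose x hx hxs using fun j => split_le (Finset.univ : Finset ι)
      (fun l => if j ∈ V l then g (j + 1) / g j - 1 else 0) (s j) (hs j)
    refine ⟨fun l => ∑ j ∈ range n, x j l * g j, ?_, ?_⟩
    · intro l
      apply dig_sum hg (fun j => x j l)
      · intro j
        refine (hx j l).trans ?_
        split_ifs
        · exact le_rfl
        · exact Nat.zero_le _
      · intro j hj
        have := hx j l
        rw [if_neg hj] at this
        omega
    · rw [Finset.sum_comm]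
      conv_lhs => rw [hsum]
      apply Finset.sum_congr rfl
      intro j _
      rw [← Finset.sum_mul, hxs j]

end R730.Gad
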