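import Pool.Agent.R730.Gad.Minimal

/-!
# Partitions with a cofinite part
-/

open Finset

namespace R730.Gad

variable {g : ℕ → ℕ}

theorem dig_add_mul (hg : IsGAdic g) {V : Set ℕ} {x q : ℕ} (hx : Dig g V x)
    (hq : ∀ J, q ≤ J → J ∈ V) (m : ℕ) : Dig g V (x + m * g q) := by
  intro J hJ
  have hJq : J < q := by
    by_contra hcon
    exact hJ (hq J (by omega))
  have key : ∀ p, p ≤ q → (x + m * g q) % g p = x % g p := by
    intro p hp
    obtain ⟨u, hu⟩ := hg.dvd_of_le hp
    have : m * g q = g p * (m * u) := by rw [hu]; ring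
    rw [this, Nat.add_mul_mod_self_left]
  rw [key _ (by omega), key _ (by omega)]
  exact hx J hJ

/-- With a cofinite part, any removable `a ≠ 0` can be removed together with another element. -/
theorem cofinite_any (hg : IsGAdic g) {h : ℕ} {W : Fin h → Set ℕ} (hW : IsPartition W)
    {i : Fin h} (hfin : ((W i)ᶜ).Finite) {a : ℕ} (ha : a ≠ 0)
    (hb : IsAsympBasis h (base g W \ {a})) :
    ∃ a' ∈ base g W, a' ≠ a ∧ IsAsympBasis h (base g W \ {a, a'}) := by
  classical
  have hh : 0 < h := i.pos
  obtain ⟨K, hK⟩ := hfin.bddAbove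
  have hKmem : ∀ q, K < q → q ∈ W i := by
    intro q hq
    by_contra hcon
    have := hK hcon
    omega
  obtain ⟨N, hN⟩ := hb
  set q := K + 1 + a with hq
  have hga : a < g q := (hg.self_le a).trans_le (hg.mono.monotone (by omega))
  have hqV : ∀ J, q ≤ J → J ∈ W i := fun J hJ => hKmem J (by omega)
  set B := g (q + 1) with hB
  have hBq : g q < B := hg.lt_succ q
  refine ⟨g q, (mem_base_iff hg hh W _).2 ⟨i, dig_g hg (hqV q le_rfl)⟩, by omega, ?_⟩
  refine ⟨N + h * B, fun n hn => ?_⟩
  obtain ⟨b, hbA, hnb⟩ := hN n (by omega)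
  obtain ⟨l0, hl0⟩ : ∃ l0, B ≤ b l0 := by
    by_contra hcon
    push Not at hcon
    have h1 : ∑ l, b l < ∑ _l : Fin h, B :=
      Finset.sum_lt_sum_of_nonempty ⟨⟨0, hh⟩, mem_univ _⟩ (fun l _ => hcon l)
    rw [Finset.sum_const, Finset.card_univ, Fintype.card_fin, smul_eq_mul] at h1
    omega
  obtain ⟨l1, hl1⟩ := (mem_base_iff hg hh W _).1 (hbA l0).1
  have hl0i : Dig g (W i) (b l0) := by
    have hne : b l0 ≠ 0 := by
      have : 0 < B := hg.pos _
      omega
    obtain ⟨t, ht1, ht2⟩ := exists_top hg hne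
    have htl := top_mem hg hl1 ht1 ht2
    have htt : q + 1 ≤ t := by
      by_contra hcon
      have : g (t + 1) ≤ g (q + 1) := hg.mono.monotone (by omega)
      omega
    have hli : l1 = i := by
      by_contra hne
      exact Set.disjoint_left.1 (hW.disj l1 i hne) htl (hKmem t (by omega))
    rw [← hli]; exact hl1
  set S := (univ.erase l0).filter (fun l => b l = g q) with hS
  have h0mem : (0 : ℕ) ∈ base g W \ {a, g q} := by
    refine ⟨(mem_base_iff hg hh W 0).2 ⟨i, dig_zero _⟩, ?_⟩
    have hqpos := hg.pos q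
    rintro (h3 | h3)
    · exact ha h3.symm
    · rw [Set.mem_singleton_iff] at h3
      omega
  refine ⟨fun l => if l = l0 then b l0 + S.card * g q else if b l = g q then 0 else b l, ?_, ?_⟩
  · intro l
    dsimp only
    split_ifs with h1 h2
    · refine ⟨(mem_base_iff hg hh W _).2 ⟨i, dig_add_mul hg hl0i hqV _⟩, ?_⟩
      rintro (h3 | h3)
      · omega
      · rw [Set.mem_singleton_iff] at h3
        omega
    · exact h0mem
    · refine ⟨(hbA l).1, ?_⟩
      rintro (h3 | h3)
      · exact (hbA l).2 h3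
      · exact h2 h3
  · rw [hnb, ← Finset.add_sum_erase univ b (mem_univ l0),
      ← Finset.add_sum_erase univ _ (mem_univ l0)]
    rw [if_pos rfl, add_assoc]
    congr 1
    have h1 : ∑ l ∈ univ.erase l0, (if l = l0 then b l0 + S.card * g q
        else if b l = g q then 0 else b l) = ∑ l ∈ univ.erase l0, if b l = g q then 0 else b l := by
      apply Finset.sum_congr rfl
      intro l hl
      rw [if_neg (Finset.ne_of_mem_erase hl)]
    rw [h1]
    have h2 : S.card * g q = ∑ l ∈ univ.erase l0, if b l = g q then g q else 0 := by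
      rw [← Finset.sum_filter, Finset.sum_const, smul_eq_mul]
    rw [h2, ← Finset.sum_add_distrib]
    apply Finset.sum_congr rfl
    intro l _
    split_ifs with h3
    · rw [h3, add_zero]
    · rw [zero_add]

end R730.Gad
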