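import Pool.Agent.R730.Gad.Extra

/-!
# Using the part of `a` twice
-/

open Finset

namespace R730.Gad

variable {g : ℕ → ℕ}

section Partition

variable {h : ℕ} {W : Fin h → Set ℕ}

theorem dig_erase (hg : IsGAdic g) (hW : IsPartition W) {b : Fin h → ℕ}
    (hb : ∀ l, Dig g (W l) (b l)) (l0 : Fin h) :
    Dig g (W l0)ᶜ (∑ l ∈ univ.erase l0, b l) := by
  classical
  have hmod : ∀ J, (∑ l ∈ univ.erase l0, b l) % g J = ∑ l ∈ univ.erase l0, b l % g J := by
    intro J
    rw [Finset.sum_nat_mod, Nat.mod_eq_of_lt]
    have h1 : ∑ l ∈ univ.erase l0, b l % g J ≤ ∑ l, wt g (W l) J := by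
      calc _ ≤ ∑ l ∈ univ.erase l0, wt g (W l) J :=
            Finset.sum_le_sum fun l _ => (hb l).mod_le hg J
        _ ≤ _ := Finset.sum_le_sum_of_subset (Finset.erase_subset _ _)
    have h3 := sum_wt hg hW J
    omega
  intro J hJ
  rw [hmod, hmod]
  apply Finset.sum_congr rfl
  intro l hl
  apply hb l
  intro hJl
  have hJ' : J ∈ W l0 := by
    by_contra hcon
    exact hJ hcon
  exact Set.disjoint_left.1 (hW.disj _ _ (Finset.ne_of_mem_erase hl)) hJl hJ'

theorem parts_unique (hg : IsGAdic g) (hW : IsPartition W) {b b' : Fin h → ℕ}
    (hb : ∀ l, Dig g (W l) (b l)) (hb' : ∀ l, Dig g (W l) (b' l)) (he : ∑ l, b l = ∑ l, b' l)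
    (l0 : Fin h) : b l0 = b' l0 := by
  classical
  refine unique_part hg (hb l0) (dig_erase hg hW hb l0) (hb' l0) (dig_erase hg hW hb' l0) ?_
  rw [Finset.add_sum_erase univ b (mem_univ l0), Finset.add_sum_erase univ b' (mem_univ l0)]
  exact he

/-- **Doubling.**  If `a` is a sum of two elements of `A_𝒢(W_i)` and the part `W_k` is dominated,
then `a` is removable. -/
theorem doubling (hg : IsGAdic g) (hW : IsPartition W) {i k : Fin h} (hki : k ≠ i) {a y z : ℕ}
    (hy : y ∈ AG g (W i)) (hz : z ∈ AG g (W i)) (hyz : a = y + z) (hd : Dig g (W i) a)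
    (hineq : ∀ J, wt g (W k) J + a % g J ≤ 2 * wt g (W i) J) :
    IsAsympBasis h (base g W \ {a}) := by
  classical
  have hy' := (mem_AG_iff hg _ _).1 hy
  have hz' := (mem_AG_iff hg _ _).1 hz
  have ha : a ≠ 0 := by omega
  refine ⟨0, fun n _ => ?_⟩
  obtain ⟨b, hb, hn⟩ := canonical hg hW n
  by_cases hbi : b i = a
  swap
  · exact ⟨b, canonical_avoid hg hW ha hd hb hbi, hn⟩
  by_cases hbk : b k = 0
  · -- a spare summand
    refine ⟨Function.update (Function.update b i y) k z, ?_, ?_⟩
    · intro l
      by_cases hlk : l = k
      · subst hlk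
        rw [Function.update_self]
        refine ⟨(mem_base_iff hg i.pos W _).2 ⟨i, hz'.2⟩, ?_⟩
        rw [Set.mem_singleton_iff]
        omega
      · rw [Function.update_of_ne hlk]
        by_cases hli : l = i
        · subst hli
          rw [Function.update_self]
          refine ⟨(mem_base_iff hg l.pos W _).2 ⟨l, hy'.2⟩, ?_⟩
          rw [Set.mem_singleton_iff]
          omega
        · rw [Function.update_of_ne hli]
          refine ⟨(mem_base_iff hg i.pos W _).2 ⟨l, hb l⟩, ?_⟩
          intro hla
          rw [Set.mem_singleton_iff] at hla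
          have := hb l
          rw [hla] at this
          exact ha (dig_disj hg (hW.disj l i hli) this hd)
    · have h1 : ∀ f : Fin h → ℕ, ∑ l, f l = f i + (f k + ∑ l ∈ (univ.erase i).erase k, f l) := by
        intro f
        rw [← Finset.add_sum_erase univ f (mem_univ i),
          ← Finset.add_sum_erase (univ.erase i) f (Finset.mem_erase.2 ⟨hki, mem_univ k⟩)]
      rw [hn, h1 b, h1 (Function.update (Function.update b i y) k z), Function.update_self,
        Function.update_of_ne (Ne.symm hki), Function.update_self, hbi, hbk]
      have h2 : ∑ l ∈ (univ.erase i).erase k, Function.update (Function.update b i y) k z l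
          = ∑ l ∈ (univ.erase i).erase k, b l := by
        apply Finset.sum_congr rfl
        intro l hl
        rw [Finset.mem_erase, Finset.mem_erase] at hl
        rw [Function.update_of_ne hl.1, Function.update_of_ne hl.2.1]
      rw [h2]
      omega
  · -- the doubled assignment
    set c : Fin h → Fin h := Function.update id k i with hc
    have hci : c i = i := by rw [hc, Function.update_of_ne (Ne.symm hki), id]
    have hck : c k = i := by rw [hc, Function.update_self]
    have hcl : ∀ l, l ≠ k → c l = l := by
      intro l hl
      rw [hc, Function.update_of_ne hl, id]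
    obtain ⟨b', hb', hn'⟩ := (rep_iff hg (fun l => W (c l)) n).2 (by
      intro J
      rw [hn]
      refine (mod_le_of_part hg hW (i := i) hb J).trans ?_
      rw [hbi]
      have e1 : ∑ l, wt g (W (c l)) J = wt g (W (c k)) J
          + ∑ l ∈ univ.erase k, wt g (W (c l)) J :=
        (Finset.add_sum_erase univ (fun l => wt g (W (c l)) J) (mem_univ k)).symm
      have e2 : ∑ l ∈ univ.erase k, wt g (W (c l)) J = ∑ l ∈ univ.erase k, wt g (W l) J := by
        apply Finset.sum_congr rfl
        intro l hl
        rw [hcl l (Finset.ne_of_mem_erase hl)]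
      have e3 := sum_wt_erase hg hW k J
      have e4 := wt_compl hg (W k) J
      have e5 := wt_compl hg (W i) J
      have e6 := hineq J
      change wt g (W i)ᶜ J + a % g J ≤ ∑ l, wt g (W (c l)) J
      rw [e1, e2, e3, hck]
      omega)
    have hkey : ∀ l0 l1 : Fin h, (l0 = i ∧ l1 = k ∨ l0 = k ∧ l1 = i) → b' l0 ≠ a := by
      intro l0 l1 hl01 hba
      apply hbk
      have hne : l1 ≠ l0 := by
        rcases hl01 with ⟨rfl, rfl⟩ | ⟨rfl, rfl⟩
        · exact hki
        · exact Ne.symm hki
      have hc1 : c l1 = i := by
        rcases hl01 with ⟨_, rfl⟩ | ⟨_, rfl⟩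
        · exact hck
        · exact hci
      -- the canonical parts of `n - a`
      have h1 : ∀ f : Fin h → ℕ, ∑ l, f l = f l0 + (f l1 + ∑ l ∈ (univ.erase l0).erase l1, f l) := by
        intro f
        rw [← Finset.add_sum_erase univ f (mem_univ l0),
          ← Finset.add_sum_erase (univ.erase l0) f (Finset.mem_erase.2 ⟨hne, mem_univ l1⟩)]
      have h2 : ∀ f : Fin h → ℕ, ∑ l, f l = f i + (f k + ∑ l ∈ (univ.erase l0).erase l1, f l) := by
        intro f
        rw [h1 f]
        rcases hl01 with ⟨rfl, rfl⟩ | ⟨rfl, rfl⟩
        · rfl
        · omega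
      have hp := parts_unique hg hW (b := Function.update b i 0)
        (b' := Function.update (Function.update b' i (b' l1)) k 0) ?_ ?_ ?_ k
      · rw [Function.update_of_ne hki, Function.update_self] at hp
        exact hp
      · intro l
        by_cases hli : l = i
        · subst hli; rw [Function.update_self]; exact dig_zero _
        · rw [Function.update_of_ne hli]; exact hb l
      · intro l
        by_cases hlk : l = k
        · subst hlk; rw [Function.update_self]; exact dig_zero _
        · rw [Function.update_of_ne hlk]
          by_cases hli : l = i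
          · subst hli
            rw [Function.update_self]
            have := hb' l1
            rwa [hc1] at this
          · rw [Function.update_of_ne hli]
            have := hb' l
            rwa [hcl l hlk] at this
      · have hout : ∀ l ∈ (univ.erase l0).erase l1, l ≠ i ∧ l ≠ k := by
          intro l hl
          rw [Finset.mem_erase, Finset.mem_erase] at hl
          rcases hl01 with ⟨rfl, rfl⟩ | ⟨rfl, rfl⟩
          · exact ⟨hl.2.1, hl.1⟩
          · exact ⟨hl.1, hl.2.1⟩
        have s1 : ∑ l ∈ (univ.erase l0).erase l1, Function.update b i 0 l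
            = ∑ l ∈ (univ.erase l0).erase l1, b l := by
          apply Finset.sum_congr rfl
          intro l hl
          rw [Function.update_of_ne (hout l hl).1]
        have s2 : ∑ l ∈ (univ.erase l0).erase l1,
            Function.update (Function.update b' i (b' l1)) k 0 l
            = ∑ l ∈ (univ.erase l0).erase l1, b' l := by
          apply Finset.sum_congr rfl
          intro l hl
          rw [Function.update_of_ne (hout l hl).2, Function.update_of_ne (hout l hl).1]
        have e1 := h2 b
        have e2 := h1 b'
        rw [h2 (Function.update b i 0), h2 (Function.update (Function.update b' i (b' l1)) k 0),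
          s1, s2, Function.update_self, Function.update_of_ne hki, Function.update_self,
          Function.update_of_ne (Ne.symm hki), Function.update_self]
        rw [← hn] at e1
        rw [← hn'] at e2
        omega
    refine ⟨b', ?_, hn'⟩
    intro l
    refine ⟨(mem_base_iff hg i.pos W _).2 ⟨c l, hb' l⟩, ?_⟩
    intro hla
    rw [Set.mem_singleton_iff] at hla
    by_cases hli : l = i
    · exact hkey i k (Or.inl ⟨rfl, rfl⟩) (by rw [← hli]; exact hla)
    · by_cases hlk : l = k
      · exact hkey k i (Or.inr ⟨rfl, rfl⟩) (by rw [← hlk]; exact hla)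
      · have := hb' l
        rw [hla] at this
        change Dig g (W (c l)) a at this
        rw [hcl l hlk] at this
        exact ha (dig_disj hg (hW.disj l i hli) this hd)

end Partition

end R730.Gad
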