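import Pool.Agent.R730.Gad.Main

/-!
# Blocks, and removing zero
-/

open Finset

namespace R730.Gad

variable {g : ℕ → ℕ}

theorem wt_block_mem (hg : IsGAdic g) {V : Set ℕ} {j : ℕ} : ∀ s, (∀ q, j ≤ q → q < j + s → q ∈ V) →
    wt g V (j + s) + g j = wt g V j + g (j + s) := by
  intro s
  induction s with
  | zero => intro _; rfl
  | succ s ih =>
    intro hq
    have h1 := ih (fun q h1 h2 => hq q h1 (by omega))
    have h2 : j + s ∈ V := hq _ (by omega) (by omega)
    rw [← add_assoc, wt_succ_mem h2]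
    have := hg.lt_succ (j + s)
    omega

theorem wt_block_not_mem {V : Set ℕ} {j : ℕ} : ∀ s, (∀ q, j ≤ q → q < j + s → q ∉ V) →
    wt g V (j + s) = wt g V j := by
  intro s
  induction s with
  | zero => intro _; rfl
  | succ s ih =>
    intro hq
    have h1 := ih (fun q h1 h2 => hq q h1 (by omega))
    have h2 : j + s ∉ V := hq _ (by omega) (by omega)
    rw [← add_assoc, wt_succ_not_mem h2, h1]

/-- Blocks prevent every non-canonical representation. -/
theorem no_block (hg : IsGAdic g) {h : ℕ} {W : Fin h → Set ℕ} (hW : IsPartition W) {i : Fin h}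
    {a : ℕ} (ha : a ≠ 0) (hd : Dig g (W i) a) (hinf : ((W i)ᶜ).Infinite)
    (hblock : ∀ k, k ≠ i → ∃ j s, (∀ q, j ≤ q → q < j + s → q ∈ W k) ∧ (h + 1) * g j ≤ g (j + s)) :
    ¬ IsAsympBasis h (base g W \ {a}) := by
  intro hb
  obtain ⟨c, ⟨k, hki, hck⟩, hineq⟩ := necessity hg hW ha hd hinf hb
  obtain ⟨j, s, hj, hjd⟩ := hblock k hki
  have h1 := hineq (j + s)
  have h2 : wt g (W i)ᶜ (j + s) + g j = wt g (W i)ᶜ j + g (j + s) := by
    apply wt_block_mem hg
    intro q hq1 hq2 hqi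
    exact Set.disjoint_left.1 (hW.disj k i hki) (hj q hq1 hq2) hqi
  have h3 : ∑ l, wt g (W (c l)) (j + s) ≤ ∑ _l : Fin h, (g j - 1) := by
    apply Finset.sum_le_sum
    intro l _
    rw [wt_block_not_mem s (fun q hq1 hq2 hql =>
      Set.disjoint_left.1 (hW.disj _ _ (hck l)) hql (hj q hq1 hq2))]
    have := wt_lt hg (W (c l)) j
    omega
  rw [Finset.sum_const, Finset.card_univ, Fintype.card_fin, smul_eq_mul] at h3
  have h4 : h * (g j - 1) < h * g j := by
    have := hg.pos j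
    exact Nat.mul_lt_mul_of_pos_left (by omega) i.pos
  have h5 : (h + 1) * g j = h * g j + g j := by ring
  omega

theorem Dig.mono {V V' : Set ℕ} (hVV : V ⊆ V') {n : ℕ} (hn : Dig g V n) : Dig g V' n :=
  fun J hJ => hn J (fun h => hJ (hVV h))

theorem dig_g (hg : IsGAdic g) {V : Set ℕ} {t : ℕ} (ht : t ∈ V) : Dig g V (g t) := by
  intro J hJ
  have hne : J ≠ t := fun h => hJ (h ▸ ht)
  rcases lt_or_gt_of_ne hne with h | h
  · rw [Nat.mod_eq_zero_of_dvd (hg.dvd_of_le (show J + 1 ≤ t by omega)),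
      Nat.mod_eq_zero_of_dvd (hg.dvd_of_le h.le)]
  · rw [Nat.mod_eq_of_lt (hg.mono h), Nat.mod_eq_of_lt ((hg.mono h).trans (hg.lt_succ J))]

theorem dig_g_sub (hg : IsGAdic g) {V : Set ℕ} {t : ℕ} (ht : t ∈ V) :
    Dig g V (g (t + 1) - g t) := by
  have h1 : wt g {t} (t + 1) = g (t + 1) - g t := by
    rw [wt_succ_mem (Set.mem_singleton t)]
    have h2 : wt g {t} t = 0 := by
      have h3 := wt_block_not_mem (g := g) (V := {t}) (j := 0) t (fun q _ hq hqt => by
        rw [Set.mem_singleton_iff] at hqt; omega)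
      rw [zero_add, wt_zero] at h3
      exact h3
    omega
  rw [← h1]
  exact (dig_wt hg {t} (t + 1)).mono (Set.singleton_subset_iff.2 ht)

theorem dig_sub_top (hg : IsGAdic g) {V : Set ℕ} {x t : ℕ} (hx : Dig g V x) (h1 : g t ≤ x)
    (h2 : x < g (t + 1)) : Dig g V (x - g t) := by
  have htV := top_mem hg hx h1 h2
  intro J hJ
  have hne : J ≠ t := fun h => hJ (h ▸ htV)
  rcases lt_or_gt_of_ne hne with h | h
  · have key : ∀ m, m ≤ t → (x - g t) % g m = x % g m := by
      intro m hm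
      obtain ⟨u, hu⟩ := hg.dvd_of_le hm
      have h3 : x = (x - g t) + g m * u := by omega
      conv_rhs => rw [h3]
      rw [Nat.add_mul_mod_self_left]
    rw [key _ (by omega), key _ (by omega)]
    exact hx J hJ
  · have h4 : g (t + 1) ≤ g J := hg.mono.monotone h
    have h5 := hg.lt_succ J
    rw [Nat.mod_eq_of_lt (by omega), Nat.mod_eq_of_lt (by omega)]

theorem hfold_of_multiset {S : Set ℕ} {h n : ℕ} (s : Multiset ℕ) (hc : s.card = h)
    (hS : ∀ x ∈ s, x ∈ S) (hn : s.sum = n) : n ∈ hfold h S := by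
  subst hn
  subst hc
  rw [← Multiset.length_toList]
  refine ⟨fun i => s.toList[i.1], ?_, ?_⟩
  · intro l
    apply hS
    rw [← Multiset.mem_toList]
    exact List.getElem_mem _
  · rw [Fin.sum_univ_getElem, Multiset.sum_toList]

/-- Growing a representation by splitting summands. -/
theorem grow {S : Set ℕ} {n h : ℕ} (hsplit : ∀ s : Multiset ℕ, (∀ x ∈ s, x ∈ S) → s.sum = n →
      s.card < h → ∃ x ∈ s, ∃ y z, y ∈ S ∧ z ∈ S ∧ x = y + z) :
    ∀ m (s : Multiset ℕ), (∀ x ∈ s, x ∈ S) → s.sum = n → s.card + m = h → n ∈ hfold h S := by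
  intro m
  induction m with
  | zero =>
    intro s hs hsum hcard
    exact hfold_of_multiset s (by omega) hs hsum
  | succ m ih =>
    intro s hs hsum hcard
    obtain ⟨x, hx, y, z, hy, hz, hxyz⟩ := hsplit s hs hsum (by omega)
    obtain ⟨t, rfl⟩ := Multiset.exists_cons_of_mem hx
    apply ih (y ::ₘ z ::ₘ t)
    · intro w hw
      rw [Multiset.mem_cons, Multiset.mem_cons] at hw
      rcases hw with rfl | rfl | hw
      · exact hy
      · exact hz
      · exact hs w (Multiset.mem_cons_of_mem hw)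
    · rw [Multiset.sum_cons] at hsum
      rw [Multiset.sum_cons, Multiset.sum_cons]
      omega
    · rw [Multiset.card_cons] at hcard
      rw [Multiset.card_cons, Multiset.card_cons]
      omega

/-- The nonzero canonical parts as a multiset. -/
theorem canonical_multiset {h n : ℕ} {b : Fin h → ℕ} (hn : n = ∑ l, b l) :
    ∃ s : Multiset ℕ, (∀ x ∈ s, x ≠ 0 ∧ ∃ l, b l = x) ∧ s.sum = n ∧ s.card ≤ h := by
  classical
  refine ⟨((univ : Finset (Fin h)).filter (fun l => b l ≠ 0)).val.map b, ?_, ?_, ?_⟩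
  · intro x hx
    rw [Multiset.mem_map] at hx
    obtain ⟨l, hl, rfl⟩ := hx
    rw [Finset.mem_val, Finset.mem_filter] at hl
    exact ⟨hl.2, l, rfl⟩
  · rw [hn]
    change ∑ l ∈ (univ : Finset (Fin h)).filter (fun l => b l ≠ 0), b l = _
    rw [Finset.sum_filter]
    apply Finset.sum_congr rfl
    intro l _
    split_ifs with h0
    · rfl
    · push Not at h0; exact h0.symm
  · rw [Multiset.card_map, Finset.card_val]
    calc _ ≤ (univ : Finset (Fin h)).card := Finset.card_le_card (Finset.filter_subset _ _)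
      _ = h := by rw [Finset.card_univ, Fintype.card_fin]

section Partition

variable {h : ℕ} {W : Fin h → Set ℕ}

theorem split_two (hg : IsGAdic g) (hW : IsPartition W) {x : ℕ} (hx : x ∈ base g W)
    (h2 : 2 ≤ x) : ∃ y z, (y ∈ base g W ∧ y ≠ 0) ∧ (z ∈ base g W ∧ z ≠ 0) ∧ x = y + z := by
  obtain ⟨k0, hk0⟩ := hW.cover 0
  have hh : 0 < h := k0.pos
  obtain ⟨i, hi⟩ := (mem_base_iff hg hh W x).1 hx
  obtain ⟨t, ht1, ht2⟩ := exists_top hg (show x ≠ 0 by omega)
  by_cases hxt : x = g t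
  · have ht0 : t ≠ 0 := by
      rintro rfl
      rw [hg.zero] at hxt
      omega
    obtain ⟨u, rfl⟩ := Nat.exists_eq_succ_of_ne_zero ht0
    obtain ⟨k, hk⟩ := hW.cover u
    have h3 := hg.lt_succ u
    have h4 := hg.pos u
    refine ⟨g (u + 1) - g u, g u, ⟨(mem_base_iff hg hh W _).2 ⟨k, dig_g_sub hg hk⟩, by omega⟩,
      ⟨(mem_base_iff hg hh W _).2 ⟨k, dig_g hg hk⟩, by omega⟩, ?_⟩
    rw [hxt]
    have : g u.succ = g (u + 1) := rfl
    omega
  · have h3 := hg.pos t
    refine ⟨g t, x - g t, ⟨(mem_base_iff hg hh W _).2 ⟨i, dig_g hg (top_mem hg hi ht1 ht2)⟩,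
      by omega⟩, ⟨(mem_base_iff hg hh W _).2 ⟨i, dig_sub_top hg hi ht1 ht2⟩, by omega⟩, by omega⟩

/-- `0` is always removable. -/
theorem zero_removable (hg : IsGAdic g) (hW : IsPartition W) :
    IsAsympBasis h (base g W \ {0}) := by
  obtain ⟨k0, hk0⟩ := hW.cover 0
  have hh : 0 < h := k0.pos
  refine ⟨h, fun n hn => ?_⟩
  obtain ⟨b, hb, hnb⟩ := canonical hg hW n
  obtain ⟨s, hs, hsum, hcard⟩ := canonical_multiset hnb
  have hS : ∀ x ∈ s, x ∈ base g W \ {0} := by
    intro x hx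
    obtain ⟨hx0, l, hl⟩ := hs x hx
    refine ⟨(mem_base_iff hg hh W _).2 ⟨l, ?_⟩, hx0⟩
    rw [← hl]; exact hb l
  refine grow ?_ (h - s.card) s hS hsum (by omega)
  intro s' hs' hsum' hcard'
  by_contra hcon
  have hone : ∀ x ∈ s', x ≤ 1 := by
    intro x hx
    by_contra hx2
    obtain ⟨y, z, hy, hz, hxyz⟩ := split_two hg hW (hs' x hx).1 (by omega)
    exact hcon ⟨x, hx, y, z, hy, hz, hxyz⟩
  have := Multiset.sum_le_card_nsmul s' 1 hone
  rw [smul_eq_mul, mul_one] at this
  omega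

end Partition

end R730.Gad
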