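import Pool.Agent.R730.Gad.Basic

/-!
# Removable elements of `{0} ∪ A_𝒢(𝒲)`
-/

open Finset

namespace R730.Gad

variable {g : ℕ → ℕ}

/-- A partition of `ℕ` into `h` nonempty parts. -/
structure IsPartition {h : ℕ} (W : Fin h → Set ℕ) : Prop where
  nonempty : ∀ i, (W i).Nonempty
  disj : ∀ i j, i ≠ j → Disjoint (W i) (W j)
  cover : ∀ n, ∃ i, n ∈ W i

/-- The set `A = {0} ∪ ⋃ A_𝒢(W_i)`. -/
def base {h : ℕ} (g : ℕ → ℕ) (W : Fin h → Set ℕ) : Set ℕ := {0} ∪ ⋃ i, AG g (W i)

/-- The `h`-fold sumset. -/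
def hfold (h : ℕ) (S : Set ℕ) : Set ℕ := {n | ∃ b : Fin h → ℕ, (∀ l, b l ∈ S) ∧ n = ∑ l, b l}

/-- Asymptotic basis of order `h`. -/
def IsAsympBasis (h : ℕ) (S : Set ℕ) : Prop := ∃ N, ∀ n, N ≤ n → n ∈ hfold h S

theorem mem_base_iff (hg : IsGAdic g) {h : ℕ} (hh : 0 < h) (W : Fin h → Set ℕ) (a : ℕ) :
    a ∈ base g W ↔ ∃ i, Dig g (W i) a := by
  constructor
  · rintro (h0 | h1)
    · rw [Set.mem_singleton_iff] at h0
      subst h0
      exact ⟨⟨0, hh⟩, dig_zero _⟩
    · rw [Set.mem_iUnion] at h1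
      obtain ⟨i, hi⟩ := h1
      exact ⟨i, ((mem_AG_iff hg _ _).1 hi).2⟩
  · rintro ⟨i, hi⟩
    by_cases h0 : a = 0
    · left; exact h0
    · right
      exact Set.mem_iUnion.2 ⟨i, (mem_AG_iff hg _ _).2 ⟨h0, hi⟩⟩

theorem dig_disj (hg : IsGAdic g) {V V' : Set ℕ} (hd : Disjoint V V') {n : ℕ}
    (h1 : Dig g V n) (h2 : Dig g V' n) : n = 0 := by
  have h3 : ∀ J, n % g J = 0 := by
    intro J
    induction J with
    | zero => rw [hg.zero, Nat.mod_one]
    | succ k ih =>
      by_cases hk : k ∈ V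
      · rw [h2 k (Set.disjoint_left.1 hd hk)]; exact ih
      · rw [h1 k hk]; exact ih
  have := h3 n
  rwa [Nat.mod_eq_of_lt (hg.self_le n)] at this

theorem unique_part (hg : IsGAdic g) {V : Set ℕ} {b r b' r' : ℕ} (hb : Dig g V b)
    (hr : Dig g Vᶜ r) (hb' : Dig g V b') (hr' : Dig g Vᶜ r') (he : b + r = b' + r') : b = b' := by
  have hs : ∀ J (x y : ℕ), Dig g V x → Dig g Vᶜ y → (x + y) % g J = x % g J + y % g J := by
    intro J x y hx hy
    have h1 := hx.mod_le hg J
    have h2 := hy.mod_le hg J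
    have h3 := wt_compl hg V J
    rw [Nat.add_mod, Nat.mod_eq_of_lt (by omega)]
  have key : ∀ J, b % g J = b' % g J ∧ r % g J = r' % g J := by
    intro J
    induction J with
    | zero => rw [hg.zero]; simp [Nat.mod_one]
    | succ k ih =>
      have h1 := hs (k + 1) b r hb hr
      have h2 := hs (k + 1) b' r' hb' hr'
      rw [he, h2] at h1
      by_cases hk : k ∈ V
      · have e1 := hr k (by simpa using hk)
        have e2 := hr' k (by simpa using hk)
        rw [e1, e2] at h1 ⊢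
        refine ⟨by omega, ih.2⟩
      · have e1 := hb k hk
        have e2 := hb' k hk
        rw [e1, e2] at h1 ⊢
        refine ⟨ih.1, by omega⟩
  have h4 := (key (max b b')).1
  rw [Nat.mod_eq_of_lt, Nat.mod_eq_of_lt] at h4
  · exact h4
  · exact (hg.self_le b').trans_le (hg.mono.monotone (le_max_right _ _))
  · exact (hg.self_le b).trans_le (hg.mono.monotone (le_max_left _ _))

theorem wt_eq_sum (hg : IsGAdic g) (V : Set ℕ) [DecidablePred (· ∈ V)] (M : ℕ) :
    wt g V M = ∑ j ∈ range M, (if j ∈ V then g (j + 1) / g j - 1 else 0) * g j := by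
  classical
  unfold wt
  apply Finset.sum_congr rfl
  intro j _
  split_ifs
  · exact (hg.digmul j).symm
  · simp

theorem dig_wt (hg : IsGAdic g) (V : Set ℕ) (M : ℕ) : Dig g V (wt g V M) := by
  classical
  rw [wt_eq_sum hg]
  apply dig_sum hg
  · intro j; split_ifs
    · exact le_rfl
    · exact Nat.zero_le _
  · intro j hj; rw [if_neg hj]

theorem wt_mod (hg : IsGAdic g) (V : Set ℕ) {J M : ℕ} (h : J ≤ M) : wt g V M % g J = wt g V J := by
  classical
  rw [wt_eq_sum hg, sum_mod hg, min_eq_left h, ← wt_eq_sum hg]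
  intro j; split_ifs
  · exact le_rfl
  · exact Nat.zero_le _

theorem wt_unbounded (hg : IsGAdic g) {V : Set ℕ} (hV : V.Infinite) (N : ℕ) :
    ∃ M, N ≤ wt g V M := by
  obtain ⟨j, hj, hNj⟩ := hV.exists_gt N
  refine ⟨j + 1, ?_⟩
  rw [wt_succ_mem hj]
  have h1 := hg.lt_succ j
  have h2 : g j ≤ g (j + 1) - g j := by
    obtain ⟨t, ht⟩ := hg.dvd j
    have : 2 ≤ t := by
      by_contra hlt
      have ht1 : t ≤ 1 := by omega
      have : g j * t ≤ g j * 1 := Nat.mul_le_mul_left _ ht1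
      omega
    have : g j * 2 ≤ g j * t := Nat.mul_le_mul_left _ this
    omega
  have := hg.self_le j
  omega

theorem wt_bounded (hg : IsGAdic g) {V : Set ℕ} {K : ℕ} (hK : ∀ j ∈ V, j < K) (J : ℕ) :
    wt g V J < g K := by
  rcases le_total J K with h | h
  · exact (wt_lt hg V J).trans_le (hg.mono.monotone h)
  · induction J, h using Nat.le_induction with
    | base => exact wt_lt hg V K
    | succ n hn ih =>
      rw [wt_succ_not_mem]
      · exact ih
      · intro hV
        have := hK n hV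
        omega

section Partition

variable {h : ℕ} {W : Fin h → Set ℕ}

theorem sum_wt (hg : IsGAdic g) (hW : IsPartition W) (J : ℕ) : ∑ k, wt g (W k) J + 1 = g J := by
  classical
  induction J with
  | zero => simp [wt_zero, hg.zero]
  | succ n ih =>
    obtain ⟨k0, hk0⟩ := hW.cover n
    have h1 : ∑ k, wt g (W k) (n + 1)
        = wt g (W k0) (n + 1) + ∑ k ∈ univ.erase k0, wt g (W k) (n + 1) :=
      (Finset.add_sum_erase univ (fun k => wt g (W k) (n + 1)) (mem_univ k0)).symm
    have h2 : ∑ k, wt g (W k) n = wt g (W k0) n + ∑ k ∈ univ.erase k0, wt g (W k) n :=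
      (Finset.add_sum_erase univ (fun k => wt g (W k) n) (mem_univ k0)).symm
    have h3 : ∑ k ∈ univ.erase k0, wt g (W k) (n + 1) = ∑ k ∈ univ.erase k0, wt g (W k) n := by
      apply Finset.sum_congr rfl
      intro k hk
      apply wt_succ_not_mem
      intro hn
      exact Set.disjoint_left.1 (hW.disj k k0 (Finset.ne_of_mem_erase hk)) hn hk0
    rw [wt_succ_mem hk0] at h1
    have := hg.lt_succ n
    omega

theorem sum_wt_erase (hg : IsGAdic g) (hW : IsPartition W) (i : Fin h) (J : ℕ) :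
    ∑ k ∈ univ.erase i, wt g (W k) J = wt g (W i)ᶜ J := by
  classical
  have h1 := sum_wt hg hW J
  have h2 : ∑ k, wt g (W k) J = wt g (W i) J + ∑ k ∈ univ.erase i, wt g (W k) J :=
    (Finset.add_sum_erase univ (fun k => wt g (W k) J) (mem_univ i)).symm
  have h3 := wt_compl hg (W i) J
  omega

theorem canonical (hg : IsGAdic g) (hW : IsPartition W) (n : ℕ) :
    ∃ b : Fin h → ℕ, (∀ l, Dig g (W l) (b l)) ∧ n = ∑ l, b l := by
  rw [rep_iff hg]
  intro J
  have h1 := sum_wt hg hW J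
  have h2 : n % g J < g J := Nat.mod_lt _ (hg.pos J)
  omega

/-- If `c` is bijective the parts of a sum are its digits parts. -/
theorem part_eq (hg : IsGAdic g) (hW : IsPartition W) {c : Fin h → Fin h}
    (hc : Function.Bijective c) {b : Fin h → ℕ} (hb : ∀ l, Dig g (W (c l)) (b l)) (l0 : Fin h)
    {a r : ℕ} (ha : Dig g (W (c l0)) a) (hr : Dig g (W (c l0))ᶜ r) (he : ∑ l, b l = a + r) :
    b l0 = a := by
  classical
  have hsplit : ∑ l, b l = b l0 + ∑ l ∈ univ.erase l0, b l :=
    (Finset.add_sum_erase univ b (mem_univ l0)).symm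
  refine unique_part hg (hb l0) ?_ ha hr (by rw [← hsplit]; exact he)
  have hmod : ∀ J, (∑ l ∈ univ.erase l0, b l) % g J = ∑ l ∈ univ.erase l0, b l % g J := by
    intro J
    rw [Finset.sum_nat_mod, Nat.mod_eq_of_lt]
    have h1 : ∑ l ∈ univ.erase l0, b l % g J ≤ ∑ l, wt g (W (c l)) J := by
      calc _ ≤ ∑ l ∈ univ.erase l0, wt g (W (c l)) J :=
            Finset.sum_le_sum fun l _ => (hb l).mod_le hg J
        _ ≤ _ := Finset.sum_le_sum_of_subset (Finset.erase_subset _ _)
    have h2 : ∑ l, wt g (W (c l)) J = ∑ k, wt g (W k) J :=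
      hc.sum_comp (fun k => wt g (W k) J)
    have h3 := sum_wt hg hW J
    omega
  intro J hJ
  rw [hmod, hmod]
  apply Finset.sum_congr rfl
  intro l hl
  apply hb l
  intro hJl
  have hne : c l ≠ c l0 := fun h => Finset.ne_of_mem_erase hl (hc.1 h)
  have hJ' : J ∈ W (c l0) := by
    by_contra hcon
    exact hJ hcon
  exact Set.disjoint_left.1 (hW.disj _ _ hne) hJl hJ'

/-- The top position of a nonzero number. -/
theorem exists_top (hg : IsGAdic g) {a : ℕ} (ha : a ≠ 0) : ∃ t, g t ≤ a ∧ a < g (t + 1) := by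
  classical
  have hex : ∃ m, a < g m := ⟨a, hg.self_le a⟩
  have h1 := Nat.find_spec hex
  have h0 : Nat.find hex ≠ 0 := by
    intro h
    rw [h, hg.zero] at h1
    omega
  obtain ⟨t, ht⟩ := Nat.exists_eq_succ_of_ne_zero h0
  refine ⟨t, ?_, by rw [ht] at h1; exact h1⟩
  by_contra hcon
  have := Nat.find_min hex (m := t) (by omega)
  omega

theorem top_mem (hg : IsGAdic g) {V : Set ℕ} {a t : ℕ} (hd : Dig g V a) (h1 : g t ≤ a)
    (h2 : a < g (t + 1)) : t ∈ V := by
  by_contra hcon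
  have h3 := hd t hcon
  rw [Nat.mod_eq_of_lt h2] at h3
  have := Nat.mod_lt a (hg.pos t)
  omega

/-- An assignment that avoids exactly the part of `a` never works. -/
theorem no_doubling (hg : IsGAdic g) (hW : IsPartition W) {i : Fin h} {a : ℕ} (ha : a ≠ 0)
    (hd : Dig g (W i) a) {c : Fin h → Fin h} (hci : ∀ l, c l ≠ i)
    (hcs : ∀ k, k ≠ i → ∃ l, c l = k)
    (hineq : ∀ J, wt g (W i)ᶜ J + a % g J ≤ ∑ l, wt g (W (c l)) J) : False := by
  classical
  obtain ⟨t, ht1, ht2⟩ := exists_top hg ha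
  have htV := top_mem hg hd ht1 ht2
  have hninj : ¬ Function.Injective c := by
    intro hinj
    obtain ⟨l, hl⟩ := (Finite.injective_iff_surjective.1 hinj) i
    exact hci l hl
  rw [Function.not_injective_iff] at hninj
  obtain ⟨l0, l1, hl01, hne⟩ := hninj
  set c' := Function.update c l0 i with hc'
  have hsurj : Function.Surjective c' := by
    intro k
    by_cases hk : k = i
    · exact ⟨l0, by rw [hc', Function.update_self, hk]⟩
    · obtain ⟨l, hl⟩ := hcs k hk
      by_cases hl0 : l = l0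
      · refine ⟨l1, ?_⟩
        rw [hc', Function.update_of_ne (Ne.symm hne), ← hl01, ← hl0, hl]
      · exact ⟨l, by rw [hc', Function.update_of_ne hl0, hl]⟩
  have hbij : Function.Bijective c' := ⟨Finite.injective_iff_surjective.2 hsurj, hsurj⟩
  have h1 : ∑ l, wt g (W (c' l)) (t + 1) = ∑ k, wt g (W k) (t + 1) :=
    hbij.sum_comp (fun k => wt g (W k) (t + 1))
  have h2 := sum_wt hg hW (t + 1)
  have h3 : ∑ l, wt g (W (c' l)) (t + 1) = wt g (W i) (t + 1)
      + ∑ l ∈ univ.erase l0, wt g (W (c l)) (t + 1) := by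
    rw [← Finset.add_sum_erase univ (fun l => wt g (W (c' l)) (t + 1)) (mem_univ l0)]
    congr 1
    · rw [hc', Function.update_self]
    · apply Finset.sum_congr rfl
      intro l hl
      rw [hc', Function.update_of_ne (Finset.ne_of_mem_erase hl)]
  have h4 : ∑ l, wt g (W (c l)) (t + 1) = wt g (W (c l0)) (t + 1)
      + ∑ l ∈ univ.erase l0, wt g (W (c l)) (t + 1) :=
    (Finset.add_sum_erase univ (fun l => wt g (W (c l)) (t + 1)) (mem_univ l0)).symm
  have h5 := wt_compl hg (W i) (t + 1)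
  have h6 := hineq (t + 1)
  rw [Nat.mod_eq_of_lt ht2] at h6
  have h7 : wt g (W (c l0)) (t + 1) = wt g (W (c l0)) t := by
    apply wt_succ_not_mem
    intro hmem
    exact Set.disjoint_left.1 (hW.disj _ _ (hci l0)) hmem htV
  have h8 := wt_lt hg (W (c l0)) t
  omega

/-- **Necessity.** -/
theorem necessity (hg : IsGAdic g) (hW : IsPartition W) {i : Fin h} {a : ℕ} (ha : a ≠ 0)
    (hd : Dig g (W i) a) (hinf : ((W i)ᶜ).Infinite)
    (hb : IsAsympBasis h (base g W \ {a})) :
    ∃ c : Fin h → Fin h, (∃ k, k ≠ i ∧ ∀ l, c l ≠ k) ∧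
      ∀ J, wt g (W i)ᶜ J + a % g J ≤ ∑ l, wt g (W (c l)) J := by
  classical
  have hh : 0 < h := i.pos
  obtain ⟨N, hN⟩ := hb
  obtain ⟨M0, hM0⟩ := wt_unbounded hg hinf N
  set P : (Fin h → Fin h) → ℕ → Prop := fun c M => ¬ Function.Bijective c ∧
    ∀ J ≤ M, wt g (W i)ᶜ J + a % g J ≤ ∑ l, wt g (W (c l)) J with hP
  have hex : ∀ M, M0 ≤ M → ∃ c, P c M := by
    intro M hM
    have hbig : N ≤ a + wt g (W i)ᶜ M := by
      have := wt_mono (g := g) (W i)ᶜ hM
      omega
    obtain ⟨b, hbA, hbs⟩ := hN _ hbig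
    choose c hc using fun l => (mem_base_iff hg hh W (b l)).1 (hbA l).1
    refine ⟨c, ?_, ?_⟩
    · intro hbij
      obtain ⟨l0, hl0⟩ := hbij.2 i
      have hbl : b l0 = a := by
        apply part_eq hg hW hbij hc l0 (a := a) (r := wt g (W i)ᶜ M)
        · rw [hl0]; exact hd
        · rw [hl0]; exact dig_wt hg _ _
        · exact hbs.symm
      exact (hbA l0).2 hbl
    · intro J hJ
      have h1 := (rep_iff hg (fun l => W (c l)) (a + wt g (W i)ᶜ M)).1 ⟨b, hc, hbs⟩ J
      have h2 : (a + wt g (W i)ᶜ M) % g J = wt g (W i)ᶜ J + a % g J := by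
        have e1 := hd.mod_le hg J
        have e2 := wt_compl hg (W i) J
        rw [Nat.add_mod, wt_mod hg _ hJ, Nat.mod_eq_of_lt (by omega), add_comm]
      rw [h2] at h1
      exact h1
  have hfreq : ∃ c, ∃ᶠ M in Filter.atTop, P c M := by
    by_contra hcon
    push Not at hcon
    have h1 : ∀ᶠ M in Filter.atTop, ∀ c, ¬ P c M := by
      rw [Filter.eventually_all]
      intro c
      exact hcon c
    rw [Filter.eventually_atTop] at h1
    obtain ⟨M1, hM1⟩ := h1
    obtain ⟨c, hc⟩ := hex (max M0 M1) (le_max_left _ _)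
    exact hM1 _ (le_max_right _ _) c hc
  obtain ⟨c, hc⟩ := hfreq
  rw [Filter.frequently_atTop] at hc
  have hnb : ¬ Function.Bijective c := by
    obtain ⟨M, _, hM⟩ := hc 0
    exact hM.1
  have hineq : ∀ J, wt g (W i)ᶜ J + a % g J ≤ ∑ l, wt g (W (c l)) J := by
    intro J
    obtain ⟨M, hJM, hM⟩ := hc J
    exact hM.2 J hJM
  refine ⟨c, ?_, hineq⟩
  by_contra hcon
  push Not at hcon
  by_cases hi : ∃ l, c l = i
  · apply hnb
    have hsurj : Function.Surjective c := by
      intro k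
      by_cases hk : k = i
      · subst hk; exact hi
      · exact hcon k hk
    exact ⟨Finite.injective_iff_surjective.2 hsurj, hsurj⟩
  · push Not at hi
    exact no_doubling hg hW ha hd hi hcon hineq

/-- The canonical representation avoids `a` unless the part of `n` is `a`. -/
theorem canonical_avoid (hg : IsGAdic g) (hW : IsPartition W) {i : Fin h} {a : ℕ} (ha : a ≠ 0)
    (hd : Dig g (W i) a) {b : Fin h → ℕ} (hb : ∀ l, Dig g (W l) (b l)) (hbi : b i ≠ a) (l : Fin h) :
    b l ∈ base g W \ {a} := by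
  refine ⟨(mem_base_iff hg i.pos W _).2 ⟨l, hb l⟩, ?_⟩
  intro hla
  rw [Set.mem_singleton_iff] at hla
  by_cases hli : l = i
  · subst hli; exact hbi hla
  · have := hb l
    rw [hla] at this
    exact ha (dig_disj hg (hW.disj l i hli) this hd)

theorem mod_le_of_part (hg : IsGAdic g) (hW : IsPartition W) {i : Fin h} {b : Fin h → ℕ}
    (hb : ∀ l, Dig g (W l) (b l)) (J : ℕ) :
    (∑ l, b l) % g J ≤ wt g (W i)ᶜ J + b i % g J := by
  classical
  calc (∑ l, b l) % g J ≤ ∑ l, b l % g J := mod_sum_le _ _ _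
    _ = b i % g J + ∑ l ∈ univ.erase i, b l % g J :=
        (Finset.add_sum_erase univ (fun l => b l % g J) (mem_univ i)).symm
    _ ≤ b i % g J + ∑ l ∈ univ.erase i, wt g (W l) J := by
        gcongr with l _
        exact (hb l).mod_le hg J
    _ = wt g (W i)ᶜ J + b i % g J := by rw [sum_wt_erase hg hW, add_comm]

/-- **Sufficiency** for an assignment which does not use the part of `a`. -/
theorem sufficiency (hg : IsGAdic g) (hW : IsPartition W) {i : Fin h} {a : ℕ} (ha : a ≠ 0)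
    (hd : Dig g (W i) a) {c : Fin h → Fin h} (hci : ∀ l, c l ≠ i)
    (hineq : ∀ J, wt g (W i)ᶜ J + a % g J ≤ ∑ l, wt g (W (c l)) J) :
    IsAsympBasis h (base g W \ {a}) := by
  refine ⟨0, fun n _ => ?_⟩
  obtain ⟨b, hb, hn⟩ := canonical hg hW n
  by_cases hbi : b i = a
  · obtain ⟨b', hb', hn'⟩ := (rep_iff hg (fun l => W (c l)) n).2 (by
      intro J
      rw [hn]
      refine (mod_le_of_part hg hW (i := i) hb J).trans ?_
      rw [hbi]
      exact hineq J)
    refine ⟨b', ?_, hn'⟩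
    intro l
    refine ⟨(mem_base_iff hg i.pos W _).2 ⟨c l, hb' l⟩, ?_⟩
    intro hla
    rw [Set.mem_singleton_iff] at hla
    have := hb' l
    rw [hla] at this
    exact ha (dig_disj hg (hW.disj _ _ (hci l)) this hd)
  · exact ⟨b, canonical_avoid hg hW ha hd hb hbi, hn⟩

/-- For `n` large, the part in a cofinite class is large. -/
theorem part_large (hg : IsGAdic g) (hW : IsPartition W) {i : Fin h} (hfin : ((W i)ᶜ).Finite)
    (B : ℕ) : ∃ N, ∀ b : Fin h → ℕ, (∀ l, Dig g (W l) (b l)) → N ≤ ∑ l, b l → B < b i := by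
  classical
  obtain ⟨K, hK⟩ := hfin.bddAbove
  refine ⟨B + g (K + 1), fun b hb hN => ?_⟩
  have h1 : ∑ l, b l = b i + ∑ l ∈ univ.erase i, b l :=
    (Finset.add_sum_erase univ b (mem_univ i)).symm
  have h2 : ∑ l ∈ univ.erase i, b l ≤ wt g (W i)ᶜ (∑ l, b l) := by
    rw [← sum_wt_erase hg hW]
    apply Finset.sum_le_sum
    intro l _
    have h3 := (hb l).mod_le hg (∑ l, b l)
    rwa [Nat.mod_eq_of_lt] at h3
    have h4 : b l ≤ ∑ l, b l := Finset.single_le_sum (fun _ _ => Nat.zero_le _) (mem_univ l)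
    exact h4.trans_lt (hg.self_le _)
  have h5 := wt_bounded hg (V := (W i)ᶜ) (K := K + 1)
    (fun j hj => Nat.lt_succ_of_le (hK hj)) (∑ l, b l)
  omega

theorem cofinite_case (hg : IsGAdic g) (hW : IsPartition W) {i : Fin h} {a : ℕ} (ha : a ≠ 0)
    (hd : Dig g (W i) a) (hfin : ((W i)ᶜ).Finite) : IsAsympBasis h (base g W \ {a}) := by
  obtain ⟨N, hN⟩ := part_large hg hW hfin a
  refine ⟨N, fun n hn => ?_⟩
  obtain ⟨b, hb, hnb⟩ := canonical hg hW n
  have := hN b hb (by omega)
  exact ⟨b, canonical_avoid hg hW ha hd hb (by omega), hnb⟩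

/-- Large digits. -/
theorem large_digits (hg : IsGAdic g) (hW : IsPartition W) {i : Fin h} {a : ℕ} (ha : a ≠ 0)
    (hd : Dig g (W i) a) (hinf : ((W i)ᶜ).Infinite)
    (hlarge : ∀ k, k ≠ i → ∃ j ∈ W k, h < g (j + 1) / g j) :
    ¬ IsAsympBasis h (base g W \ {a}) := by
  intro hb
  obtain ⟨c, ⟨k, hki, hck⟩, hineq⟩ := necessity hg hW ha hd hinf hb
  obtain ⟨j, hj, hjd⟩ := hlarge k hki
  have h1 := hineq (j + 1)
  have h2 : h * g j ≤ wt g (W i)ᶜ (j + 1) := by
    rw [wt_succ_mem (V := (W i)ᶜ) (fun hji => Set.disjoint_left.1 (hW.disj k i hki) hj hji),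
      ← hg.digmul j]
    have : h * g j ≤ (g (j + 1) / g j - 1) * g j := Nat.mul_le_mul_right _ (by omega)
    omega
  have h3 : ∑ l, wt g (W (c l)) (j + 1) ≤ ∑ _l : Fin h, (g j - 1) := by
    apply Finset.sum_le_sum
    intro l _
    rw [wt_succ_not_mem (fun hjl => Set.disjoint_left.1 (hW.disj _ _ (hck l)) hjl hj)]
    have := wt_lt hg (W (c l)) j
    omega
  rw [Finset.sum_const, Finset.card_univ, Fintype.card_fin, smul_eq_mul] at h3
  have h4 : h * (g j - 1) < h * g j := by
    have := hg.pos j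
    exact Nat.mul_lt_mul_of_pos_left (by omega) i.pos
  omega

end Partition

/-- `h = 2`: the doubled part. -/
theorem two_case (hg : IsGAdic g) {W : Fin 2 → Set ℕ} (hW : IsPartition W) {i : Fin 2} {a : ℕ}
    (ha : a ≠ 0) (hd : Dig g (W i) a) :
    IsAsympBasis 2 (base g W \ {a}) ↔
      ((W i)ᶜ).Finite ∨ ∀ J, wt g (W i)ᶜ J + a % g J ≤ 2 * wt g (W i) J := by
  constructor
  · intro hb
    by_cases hfin : ((W i)ᶜ).Finite
    · left; exact hfin
    · right
      obtain ⟨c, ⟨k, hki, hck⟩, hineq⟩ := necessity hg hW ha hd hfin hb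
      intro J
      have hc : ∀ l, c l = i := by
        intro l
        have := hck l
        omega
      have h1 := hineq J
      rw [Fin.sum_univ_two, hc 0, hc 1] at h1
      omega
  · rintro (hfin | hineq)
    · exact cofinite_case hg hW ha hd hfin
    · refine ⟨a + 1, fun n hn => ?_⟩
      obtain ⟨b, hb, hnb⟩ := canonical hg hW n
      by_cases hbi : b i = a
      · obtain ⟨b', hb', hn'⟩ := (rep_iff hg (fun _ : Fin 2 => W i) n).2 (by
          intro J
          rw [hnb]
          refine (mod_le_of_part hg hW (i := i) hb J).trans ?_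
          rw [hbi, Fin.sum_univ_two]
          have := hineq J
          omega)
        rw [Fin.sum_univ_two] at hn' hnb
        have hother : ∀ x y : ℕ, Dig g (W i) x → n = a + x → False := by
          intro x _ hx hnx
          obtain ⟨k, hk⟩ : ∃ k : Fin 2, k ≠ i ∧ n = b i + b k := by
            rcases Fin.exists_fin_two.1 ⟨i, rfl⟩ with h0 | h1
            · exact ⟨1, by rw [h0]; decide, by rw [h0]; exact hnb⟩
            · exact ⟨0, by rw [h1]; decide, by rw [h1, add_comm]; exact hnb⟩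
          have hbk : b k = x := by have := hk.2; omega
          have h0 := dig_disj hg (hW.disj _ _ hk.1) (hb k) (by rw [hbk]; exact hx)
          omega
        refine ⟨b', ?_, by rw [Fin.sum_univ_two]; exact hn'⟩
        intro l
        refine ⟨(mem_base_iff hg (by norm_num) W _).2 ⟨i, hb' l⟩, ?_⟩
        intro hla
        rw [Set.mem_singleton_iff] at hla
        rcases Fin.exists_fin_two.1 ⟨l, rfl⟩ with h0 | h1
        · exact hother (b' 1) 0 (hb' 1) (by rw [hn', ← hla, h0])
        · exact hother (b' 0) 0 (hb' 0) (by rw [hn', ← hla, h1, add_comm])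
      · exact ⟨b, canonical_avoid hg hW ha hd hb hbi, hnb⟩

end R730.Gad
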