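import Pool.Agent.R730.Gad.Two

/-!
# Minimality of `A \ {a}`
-/

open Finset

namespace R730.Gad

variable {g : ℕ → ℕ}

/-- Minimal asymptotic basis of order `h`. -/
def IsMinAsympBasis (h : ℕ) (S : Set ℕ) : Prop :=
  IsAsympBasis h S ∧ ∀ B : Set ℕ, B ⊆ S → B ≠ S → ¬ IsAsympBasis h B

theorem IsAsympBasis.mono {h : ℕ} {S T : Set ℕ} (hST : S ⊆ T) (hS : IsAsympBasis h S) :
    IsAsympBasis h T := by
  obtain ⟨N, hN⟩ := hS
  refine ⟨N, fun n hn => ?_⟩
  obtain ⟨b, hb, hs⟩ := hN n hn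
  exact ⟨b, fun l => hST (hb l), hs⟩

theorem min_iff {h : ℕ} (A : Set ℕ) (a : ℕ) : IsMinAsympBasis h (A \ {a}) ↔
    IsAsympBasis h (A \ {a}) ∧ ∀ a' ∈ A, a' ≠ a → ¬ IsAsympBasis h (A \ {a, a'}) := by
  constructor
  · rintro ⟨h1, h2⟩
    refine ⟨h1, fun a' ha' hne => h2 _ ?_ ?_⟩
    · intro x hx
      refine ⟨hx.1, fun hxa => hx.2 ?_⟩
      rw [Set.mem_singleton_iff] at hxa
      rw [hxa]; exact Set.mem_insert _ _
    · intro heq
      have h3 : a' ∈ A \ {a} := ⟨ha', by rwa [Set.mem_singleton_iff]⟩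
      rw [← heq] at h3
      exact h3.2 (Set.mem_insert_of_mem _ (Set.mem_singleton _))
  · rintro ⟨h1, h2⟩
    refine ⟨h1, fun B hB hne hBas => ?_⟩
    obtain ⟨a', ha', ha'B⟩ : ∃ a', a' ∈ A \ {a} ∧ a' ∉ B := by
      by_contra hcon
      push Not at hcon
      exact hne (Set.Subset.antisymm hB hcon)
    refine h2 a' ha'.1 (by simpa using ha'.2) (hBas.mono ?_)
    intro x hx
    refine ⟨(hB hx).1, ?_⟩
    intro hxx
    rcases hxx with h3 | h3
    · exact (hB hx).2 h3
    · rw [Set.mem_singleton_iff] at h3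
      rw [h3] at hx
      exact ha'B hx

theorem dig_add_top (hg : IsGAdic g) {V : Set ℕ} {t y : ℕ} (ht : t ∈ V) (hy : Dig g V y)
    (hyt : y < g t) : Dig g V (g t + y) := by
  intro J hJ
  have hne : J ≠ t := fun h => hJ (h ▸ ht)
  rcases lt_or_gt_of_ne hne with h | h
  · have key : ∀ m, m ≤ t → (g t + y) % g m = y % g m := by
      intro m hm
      obtain ⟨u, hu⟩ := hg.dvd_of_le hm
      rw [hu, add_comm, Nat.add_mul_mod_self_left]
    rw [key _ (by omega), key _ (by omega)]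
    exact hy J hJ
  · have h1 : g t + y < g (t + 1) := by
      obtain ⟨u, hu⟩ := hg.dvd t
      have hl := hg.lt_succ t
      have hu2 : 2 ≤ u := by
        by_contra hcon
        have : g t * u ≤ g t * 1 := Nat.mul_le_mul_left _ (by omega)
        omega
      have : g t * 2 ≤ g t * u := Nat.mul_le_mul_left _ hu2
      omega
    have h2 : g (t + 1) ≤ g J := hg.mono.monotone h
    have h3 := hg.lt_succ J
    rw [Nat.mod_eq_of_lt (by omega), Nat.mod_eq_of_lt (by omega)]

theorem two_mul_le (hg : IsGAdic g) (t : ℕ) : 2 * g t ≤ g (t + 1) := by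
  obtain ⟨u, hu⟩ := hg.dvd t
  have hl := hg.lt_succ t
  have hu2 : 2 ≤ u := by
    by_contra hcon
    have : g t * u ≤ g t * 1 := Nat.mul_le_mul_left _ (by omega)
    omega
  have : g t * 2 ≤ g t * u := Nat.mul_le_mul_left _ hu2
  omega

section Partition

variable {h : ℕ} {W : Fin h → Set ℕ}

/-- In a cofinite class two elements may be removed. -/
theorem cofinite_pair (hg : IsGAdic g) (hW : IsPartition W) {i : Fin h} {a a' : ℕ} (ha : a ≠ 0)
    (ha' : a' ≠ 0) (hd : Dig g (W i) a) (hd' : Dig g (W i) a') (hfin : ((W i)ᶜ).Finite) :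
    IsAsympBasis h (base g W \ {a, a'}) := by
  obtain ⟨N, hN⟩ := part_large hg hW hfin (a + a')
  refine ⟨N, fun n hn => ?_⟩
  obtain ⟨b, hb, hnb⟩ := canonical hg hW n
  have hbig := hN b hb (by omega)
  refine ⟨b, fun l => ?_, hnb⟩
  have h1 := canonical_avoid hg hW ha hd hb (by omega) l
  have h2 := canonical_avoid hg hW ha' hd' hb (by omega) l
  refine ⟨h1.1, ?_⟩
  rintro (h3 | h3)
  · exact h1.2 h3
  · exact h2.2 h3

/-- In a cofinite class `0` and one more element may be removed. -/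
theorem cofinite_zero (hg : IsGAdic g) (hW : IsPartition W) {i : Fin h} {a : ℕ} (ha : a ≠ 0)
    (hd : Dig g (W i) a) (hfin : ((W i)ᶜ).Finite) :
    IsAsympBasis h (base g W \ {0, a}) := by
  classical
  have hh : 0 < h := i.pos
  obtain ⟨K, hK⟩ := hfin.bddAbove
  have hKmem : ∀ q, K < q → q ∈ W i := by
    intro q hq
    by_contra hcon
    have := hK hcon
    omega
  obtain ⟨N, hN⟩ := part_large hg hW hfin a
  set t0 := K + 1 + a with ht0
  have hgt0 : a < g t0 := (hg.self_le a).trans_le (hg.mono.monotone (by omega))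
  set B := g (t0 + 1) with hB
  refine ⟨N + h * B, fun n hn => ?_⟩
  obtain ⟨b, hb, hnb⟩ := canonical hg hW n
  have hbig := hN b hb (by omega)
  obtain ⟨s, hs, hsum, hcard⟩ := canonical_multiset hnb
  have hS : ∀ x ∈ s, x ∈ base g W \ {0, a} := by
    intro x hx
    obtain ⟨hx0, l, hl⟩ := hs x hx
    have h1 := canonical_avoid hg hW ha hd hb (by omega) l
    rw [hl] at h1
    refine ⟨h1.1, ?_⟩
    rintro (h3 | h3)
    · exact hx0 h3
    · exact h1.2 h3
  refine grow ?_ (h - s.card) s hS hsum (by omega)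
  intro s' hs' hsum' hcard'
  obtain ⟨x, hx, hxB⟩ : ∃ x ∈ s', B ≤ x := by
    by_contra hcon
    push Not at hcon
    have h1 := Multiset.sum_le_card_nsmul s' B (fun x hx => (hcon x hx).le)
    rw [smul_eq_mul] at h1
    have hBpos : 0 < B := hg.pos _
    have h2 : s'.card * B < h * B := Nat.mul_lt_mul_of_pos_right hcard' hBpos
    omega
  refine ⟨x, hx, ?_⟩
  have hxA := hs' x hx
  obtain ⟨l, hl⟩ := (mem_base_iff hg hh W x).1 hxA.1
  have hx0 : x ≠ 0 := by
    have : 0 < B := hg.pos _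
    omega
  obtain ⟨t, ht1, ht2⟩ := exists_top hg hx0
  have htl := top_mem hg hl ht1 ht2
  have htt : t0 + 1 ≤ t := by
    by_contra hcon
    have : g (t + 1) ≤ g (t0 + 1) := hg.mono.monotone (by omega)
    omega
  have hli : l = i := by
    by_contra hne
    exact Set.disjoint_left.1 (hW.disj l i hne) htl (hKmem t (by omega))
  subst hli
  obtain ⟨u, rfl⟩ : ∃ u, t = u + 1 := ⟨t - 1, by omega⟩
  have hu : u ∈ W l := hKmem u (by omega)
  have hgu : a < g u := hgt0.trans_le (hg.mono.monotone (by omega))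
  have h2u := two_mul_le hg u
  have hmemI : ∀ z, Dig g (W l) z → z ≠ 0 → z ≠ a → z ∈ base g W \ {0, a} := by
    intro z hz hz0 hza
    refine ⟨(mem_base_iff hg hh W z).2 ⟨l, hz⟩, ?_⟩
    rintro (h3 | h3)
    · exact hz0 h3
    · exact hza h3
  have hrest := dig_sub_top hg hl ht1 ht2
  by_cases h1 : x - g (u + 1) = 0
  · refine ⟨g (u + 1) - g u, g u, hmemI _ (dig_g_sub hg hu) (by omega) (by omega),
      hmemI _ (dig_g hg hu) (by omega) (by omega), by omega⟩
  · by_cases h2 : x - g (u + 1) = a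
    · refine ⟨g (u + 1) - g u, g u + a, hmemI _ (dig_g_sub hg hu) (by omega) (by omega),
        hmemI _ (dig_add_top hg hu hd hgu) (by omega) (by omega), by omega⟩
    · refine ⟨g (u + 1), x - g (u + 1), hmemI _ (dig_g hg htl) (by omega) (by omega),
        hmemI _ hrest h1 h2, by omega⟩

end Partition

end R730.Gad
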