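import Pool.Agent.R730.Gad.Doubling

/-!
# The explicit form of the inequality for two parts
-/

open Finset

namespace R730.Gad

variable {g : ℕ → ℕ}

/-- The `𝒢`-adic digit of `n` at position `q`. -/
def digit (g : ℕ → ℕ) (n q : ℕ) : ℕ := n % g (q + 1) / g q

theorem digit_step (hg : IsGAdic g) (n q : ℕ) :
    n % g (q + 1) = n % g q + digit g n q * g q := by
  have h2 := Nat.div_add_mod (n % g (q + 1)) (g q)
  rw [mod_mod_g hg (Nat.le_succ q)] at h2
  unfold digit
  rw [mul_comm (n % g (q + 1) / g q) (g q)]
  omega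

theorem digit_lt (hg : IsGAdic g) (n q : ℕ) : digit g n q ≤ g (q + 1) / g q - 1 :=
  digit_le hg n q

/-- All digits of `a` in the run of `V` just below `J` are maximal. -/
def maxrun (g : ℕ → ℕ) (V : Set ℕ) (a : ℕ) : ℕ → Prop
  | 0 => True
  | (J + 1) => J ∉ V ∨ (maxrun g V a J ∧ digit g a J = g (J + 1) / g J - 1)

theorem not_maxrun_iff (hg : IsGAdic g) (V : Set ℕ) (a J : ℕ) : ¬ maxrun g V a J ↔
    ∃ q < J, (∀ r, q ≤ r → r < J → r ∈ V) ∧ digit g a q < g (q + 1) / g q - 1 := by
  induction J with
  | zero => simp [maxrun]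
  | succ J ih =>
    rw [maxrun, not_or, not_and]
    constructor
    · rintro ⟨h1, h2⟩
      push Not at h1
      by_cases hm : maxrun g V a J
      · refine ⟨J, Nat.lt_succ_self J, ?_, ?_⟩
        · intro r hr1 hr2
          have : r = J := by omega
          rw [this]; exact h1
        · exact lt_of_le_of_ne (digit_lt hg a J) (h2 hm)
      · obtain ⟨q, hq, hqr, hqd⟩ := ih.1 hm
        refine ⟨q, by omega, ?_, hqd⟩
        intro r hr1 hr2
        by_cases hrJ : r = J
        · rw [hrJ]; exact h1
        · exact hqr r hr1 (by omega)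
    · rintro ⟨q, hq, hqr, hqd⟩
      refine ⟨fun h => h (hqr J (by omega) (Nat.lt_succ_self J)), ?_⟩
      intro hm
      by_cases hqJ : q = J
      · rw [← hqJ]; omega
      · exfalso
        exact (ih.2 ⟨q, by omega, fun r h1 h2 => hqr r h1 (by omega), hqd⟩) hm

theorem ineq_iff (hg : IsGAdic g) {V : Set ℕ} {a : ℕ} (hd : Dig g V a) :
    (∀ J, wt g Vᶜ J + a % g J ≤ 2 * wt g V J) ↔
      ∀ j, j ∉ V → g (j + 1) = 2 * g j ∧ ¬ maxrun g V a j := by
  have hdig : ∀ J, ∃ x, a % g (J + 1) = a % g J + x ∧ x ≤ g (J + 1) - g J ∧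
      (digit g a J = g (J + 1) / g J - 1 → x = g (J + 1) - g J) ∧
      (digit g a J ≠ g (J + 1) / g J - 1 → x + g J ≤ g (J + 1) - g J) := by
    intro J
    refine ⟨digit g a J * g J, digit_step hg a J, ?_, ?_, ?_⟩
    · rw [← hg.digmul]; exact Nat.mul_le_mul_right _ (digit_lt hg a J)
    · intro h; rw [h, hg.digmul]
    · intro h
      have h1 := digit_lt hg a J
      have h2 : digit g a J + 1 ≤ g (J + 1) / g J - 1 := by omega
      have h3 := Nat.mul_le_mul_right (g J) h2
      rw [hg.digmul, add_mul, one_mul] at h3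
      exact h3
  constructor
  · intro hF
    have key : ∀ J, 2 * wt g V J < wt g Vᶜ J + a % g J + 2 * g J ∧
        (maxrun g V a J → 2 * wt g V J < wt g Vᶜ J + a % g J + g J) := by
      intro J
      induction J with
      | zero => rw [wt_zero, wt_zero, hg.zero]; simp
      | succ J ih =>
        have hl := hg.lt_succ J
        obtain ⟨x, hx1, hx2, hx3, hx4⟩ := hdig J
        by_cases hJ : J ∈ V
        · rw [wt_succ_mem hJ, wt_succ_not_mem (V := Vᶜ) (by simpa using hJ), hx1]
          refine ⟨by omega, ?_⟩
          intro hm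
          rw [maxrun] at hm
          rcases hm with hm | ⟨hm, hmd⟩
          · exact absurd hJ hm
          · have h1 := ih.2 hm
            have h2 := hx3 hmd
            omega
        · have hF1 := hF (J + 1)
          have hmod : a % g (J + 1) = a % g J := hd J hJ
          rw [wt_succ_not_mem hJ, wt_succ_mem (V := Vᶜ) hJ, hmod] at hF1
          rw [wt_succ_not_mem hJ, wt_succ_mem (V := Vᶜ) hJ, hmod]
          refine ⟨by omega, fun _ => by omega⟩
    intro j hj
    have hF1 := hF (j + 1)
    have hmod : a % g (j + 1) = a % g j := hd j hj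
    have hl := hg.lt_succ j
    rw [wt_succ_not_mem hj, wt_succ_mem (V := Vᶜ) hj, hmod] at hF1
    obtain ⟨u, hu⟩ := hg.dvd j
    have hu2 : 2 ≤ u := by
      by_contra hcon
      have : g j * u ≤ g j * 1 := Nat.mul_le_mul_left _ (by omega)
      omega
    refine ⟨?_, ?_⟩
    · have h1 := (key j).1
      have h3 : u < 3 := by
        by_contra hcon
        have : g j * 3 ≤ g j * u := Nat.mul_le_mul_left _ (by omega)
        omega
      have h4 : u = 2 := by omega
      rw [hu, h4, mul_comm]
    · intro hm
      have h1 := (key j).2 hm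
      have : g j * 2 ≤ g j * u := Nat.mul_le_mul_left _ hu2
      omega
  · intro hE
    have key : ∀ J, wt g Vᶜ J + a % g J ≤ 2 * wt g V J ∧
        (¬ maxrun g V a J → wt g Vᶜ J + a % g J + g J ≤ 2 * wt g V J) := by
      intro J
      induction J with
      | zero => rw [wt_zero, wt_zero, hg.zero]; simp [maxrun, Nat.mod_one]
      | succ J ih =>
        have hl := hg.lt_succ J
        obtain ⟨x, hx1, hx2, hx3, hx4⟩ := hdig J
        by_cases hJ : J ∈ V
        · rw [wt_succ_mem hJ, wt_succ_not_mem (V := Vᶜ) (by simpa using hJ), hx1]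
          refine ⟨by omega, ?_⟩
          intro hm
          rw [maxrun, not_or, not_and] at hm
          by_cases hmJ : maxrun g V a J
          · have h2 := hx4 (hm.2 hmJ)
            omega
          · have h1 := ih.2 hmJ
            omega
        · have hmod : a % g (J + 1) = a % g J := hd J hJ
          obtain ⟨h1, h2⟩ := hE J hJ
          have h3 := ih.2 h2
          rw [wt_succ_not_mem hJ, wt_succ_mem (V := Vᶜ) hJ, hmod]
          refine ⟨by omega, ?_⟩
          intro hm
          exfalso
          apply hm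
          rw [maxrun]
          exact Or.inl hJ
    exact fun J => (key J).1

end R730.Gad
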