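import Pool.Agent.R730.Gad.Minimal

/-!
# Minimality of `A \ {a}` for two parts
-/

open Finset

namespace R730.Gad

variable {g : ℕ → ℕ}

theorem hfold_two {S : Set ℕ} {n x y : ℕ} (hx : x ∈ S) (hy : y ∈ S) (h : n = x + y) :
    n ∈ hfold 2 S := by
  refine ⟨![x, y], ?_, ?_⟩
  · intro l
    fin_cases l
    · exact hx
    · exact hy
  · rw [Fin.sum_univ_two]
    exact h

theorem digit_g_self (hg : IsGAdic g) (q : ℕ) : digit g (g q) q = 1 := by
  unfold digit
  rw [Nat.mod_eq_of_lt (hg.lt_succ q), Nat.div_self (hg.pos q)]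

theorem digit_g_ne (hg : IsGAdic g) {q m : ℕ} (h : m ≠ q) : digit g (g q) m = 0 := by
  unfold digit
  rcases lt_or_gt_of_ne h with h1 | h1
  · rw [Nat.mod_eq_zero_of_dvd (hg.dvd_of_le (show m + 1 ≤ q by omega)), Nat.zero_div]
  · have h2 : g q < g m := hg.mono h1
    rw [Nat.mod_eq_of_lt (h2.trans (hg.lt_succ m)), Nat.div_eq_of_lt h2]

theorem ratio_ge (hg : IsGAdic g) (q : ℕ) : 2 ≤ g (q + 1) / g q := by
  rw [Nat.le_div_iff_mul_le (hg.pos q)]
  exact two_mul_le hg q

section Two

variable {W : Fin 2 → Set ℕ}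

theorem compl_eq (hW : IsPartition W) {i k : Fin 2} (hki : k ≠ i) : W k = (W i)ᶜ := by
  ext n
  constructor
  · intro hn hni
    exact Set.disjoint_left.1 (hW.disj k i hki) hn hni
  · intro hn
    obtain ⟨l, hl⟩ := hW.cover n
    have hli : l ≠ i := fun h => hn (h ▸ hl)
    have hlk : l = k := by omega
    rw [← hlk]; exact hl

theorem removable_iff (hg : IsGAdic g) (hW : IsPartition W) {i : Fin 2} {a : ℕ} (ha : a ≠ 0)
    (hd : Dig g (W i) a) (hinf : ((W i)ᶜ).Infinite) :
    IsAsympBasis 2 (base g W \ {a}) ↔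
      ∀ j, j ∉ W i → g (j + 1) = 2 * g j ∧ ¬ maxrun g (W i) a j := by
  rw [two_case hg hW ha hd, ineq_iff hg hd]
  constructor
  · rintro (h | h)
    · exact absurd h hinf
    · exact h
  · intro h; right; exact h

/-- The structural condition on `W_i`. -/
def CC (g : ℕ → ℕ) (V : Set ℕ) : Prop := ∀ j, j ∉ V → g (j + 1) = 2 * g j ∧ 1 ≤ j ∧ j - 1 ∈ V

theorem cc_of {V : Set ℕ} {a : ℕ} (h : ∀ j, j ∉ V → g (j + 1) = 2 * g j ∧ ¬ maxrun g V a j) :
    CC g V := by
  intro j hj
  obtain ⟨h1, h2⟩ := h j hj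
  refine ⟨h1, ?_⟩
  cases j with
  | zero => exact absurd trivial h2
  | succ m =>
    rw [maxrun, not_or] at h2
    refine ⟨by omega, ?_⟩
    have := h2.1
    push Not at this
    simpa using this

theorem not_removable_other (hg : IsGAdic g) (hW : IsPartition W) {i k : Fin 2} (hki : k ≠ i)
    (h0 : 0 ∈ W i) {a : ℕ} (ha : a ≠ 0) (hd : Dig g (W k) a) (hinf : (W i).Infinite) :
    ¬ IsAsympBasis 2 (base g W \ {a}) := by
  intro hb
  have hc : (W k)ᶜ = W i := by rw [compl_eq hW hki, compl_compl]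
  have h1 := (removable_iff hg hW ha hd (by rw [hc]; exact hinf)).1 hb 0
    (by rw [compl_eq hW hki]; simpa using h0)
  exact h1.2 trivial

/-- Representations by two large elements of `A_𝒢(V)`. -/
theorem rep_large (hg : IsGAdic g) {V : Set ℕ} (hinf : (Vᶜ).Infinite) {a : ℕ}
    (hd : Dig g V a) (hineq : ∀ J, wt g Vᶜ J + a % g J ≤ 2 * wt g V J) (B : ℕ) :
    ∃ N, ∀ n r, N ≤ n → Dig g Vᶜ r → n = a + r →
      ∃ x y, Dig g V x ∧ Dig g V y ∧ B < x ∧ B < y ∧ n = x + y := by
  obtain ⟨M, hM⟩ := wt_unbounded hg hinf (B + a)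
  refine ⟨g (M + 1) + a, fun n r hn hr hnr => ?_⟩
  obtain ⟨b, hb, hnb⟩ := (rep_iff hg (fun _ : Fin 2 => V) n).2 (by
    intro J
    rw [Fin.sum_univ_two, hnr, Nat.add_mod]
    have h1 := hr.mod_le hg J
    have h2 := hineq J
    calc (a % g J + r % g J) % g J ≤ a % g J + r % g J := Nat.mod_le _ _
      _ ≤ _ := by omega)
  rw [Fin.sum_univ_two] at hnb
  have hrpos : r ≠ 0 := by
    have := hg.pos (M + 1)
    omega
  obtain ⟨j, hj1, hj2⟩ := exists_top hg hrpos
  have hjV := top_mem hg hr hj1 hj2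
  have hjM : M + 1 ≤ j := by
    by_contra hcon
    have : g (j + 1) ≤ g (M + 1) := hg.mono.monotone (by omega)
    omega
  have hMlt := wt_lt hg Vᶜ M
  have hgMj : g M ≤ g j := hg.mono.monotone (by omega)
  have haj : a < g (j + 1) := by
    have := hg.lt_succ j
    omega
  have h1 := hr.mod_le hg (j + 1)
  have h2 := hd.mod_le hg (j + 1)
  rw [Nat.mod_eq_of_lt hj2] at h1
  rw [Nat.mod_eq_of_lt haj] at h2
  have h3 := wt_compl hg V (j + 1)
  have h4 := wt_compl hg V j
  have hle : ∀ x, Dig g V x → x ≤ n → x ≤ wt g V j := by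
    intro x hx hxn
    have h5 := hx.mod_le hg j
    rw [← hx j hjV, Nat.mod_eq_of_lt (by omega)] at h5
    exact h5
  have h6 := hle _ (hb 0) (by omega)
  have h7 := hle _ (hb 1) (by omega)
  have h8 := wt_mono (g := g) Vᶜ (show M ≤ j by omega)
  exact ⟨b 0, b 1, hb 0, hb 1, by omega, by omega, hnb⟩

theorem canonical_two (hg : IsGAdic g) (hW : IsPartition W) {i k : Fin 2} (hki : k ≠ i) (n : ℕ) :
    ∃ x y, Dig g (W i) x ∧ Dig g (W k) y ∧ n = x + y := by
  obtain ⟨b, hb, hn⟩ := canonical hg hW n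
  refine ⟨b i, b k, hb i, hb k, ?_⟩
  rw [hn, Fin.sum_univ_two]
  rcases Fin.exists_fin_two.1 ⟨i, rfl⟩ with h0 | h1
  · have : k = 1 := by omega
    rw [h0, this]
  · have : k = 0 := by omega
    rw [h1, this, add_comm]

/-- Two removable elements may be removed together. -/
theorem remove_pair (hg : IsGAdic g) (hW : IsPartition W) {i k : Fin 2} (hki : k ≠ i)
    (hinf : ((W i)ᶜ).Infinite) {a a' : ℕ} (ha : a ≠ 0) (ha' : a' ≠ 0) (hd : Dig g (W i) a)
    (hd' : Dig g (W i) a')
    (hineq : ∀ J, wt g (W i)ᶜ J + a % g J ≤ 2 * wt g (W i) J)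
    (hineq' : ∀ J, wt g (W i)ᶜ J + a' % g J ≤ 2 * wt g (W i) J) :
    IsAsympBasis 2 (base g W \ {a, a'}) := by
  obtain ⟨N, hN⟩ := rep_large hg hinf hd hineq (a + a')
  obtain ⟨N', hN'⟩ := rep_large hg hinf hd' hineq' (a + a')
  have hmem : ∀ x, Dig g (W i) x → a + a' < x → x ∈ base g W \ {a, a'} := by
    intro x hx hax
    refine ⟨(mem_base_iff hg (by norm_num) W x).2 ⟨i, hx⟩, ?_⟩
    rintro (h1 | h1)
    · omega
    · rw [Set.mem_singleton_iff] at h1; omega
  refine ⟨N + N', fun n hn => ?_⟩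
  obtain ⟨x, y, hx, hy, hxy⟩ := canonical_two hg hW hki n
  have hyc : Dig g (W i)ᶜ y := by rw [← compl_eq hW hki]; exact hy
  by_cases h1 : x = a
  · obtain ⟨u, v, hu, hv, hu1, hv1, huv⟩ := hN n y (by omega) hyc (by rw [hxy, h1])
    exact hfold_two (hmem u hu hu1) (hmem v hv hv1) huv
  · by_cases h2 : x = a'
    · obtain ⟨u, v, hu, hv, hu1, hv1, huv⟩ := hN' n y (by omega) hyc (by rw [hxy, h2])
      exact hfold_two (hmem u hu hu1) (hmem v hv hv1) huv
    · refine hfold_two (x := x) (y := y) ⟨(mem_base_iff hg (by norm_num) W x).2 ⟨i, hx⟩, ?_⟩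
        ⟨(mem_base_iff hg (by norm_num) W y).2 ⟨k, hy⟩, ?_⟩ hxy
      · rintro (h3 | h3)
        · exact h1 h3
        · exact h2 h3
      · rintro (h3 | h3)
        · rw [h3] at hy
          exact ha (dig_disj hg (hW.disj k i hki) hy hd)
        · rw [Set.mem_singleton_iff] at h3
          rw [h3] at hy
          exact ha' (dig_disj hg (hW.disj k i hki) hy hd')

theorem dichotomy (hg : IsGAdic g) {V : Set ℕ} {a : ℕ} (hd : Dig g V a) (ha0 : a ≠ 0)
    (ha1 : a ≠ 1) : (∃ y z, Dig g V y ∧ Dig g V z ∧ y ≠ 0 ∧ z ≠ 0 ∧ a = y + z) ∨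
      ∃ p, a = g (p + 1) ∧ p ∉ V := by
  obtain ⟨q, hq1, hq2⟩ := exists_top hg ha0
  have hqV := top_mem hg hd hq1 hq2
  by_cases h : a - g q = 0
  · have haq : a = g q := by omega
    cases q with
    | zero => rw [hg.zero] at haq; exact absurd haq ha1
    | succ p =>
      by_cases hp : p ∈ V
      · left
        have h1 := hg.lt_succ p
        have h2 := hg.pos p
        exact ⟨g (p + 1) - g p, g p, dig_g_sub hg hp, dig_g hg hp, by omega, by omega, by omega⟩
      · right; exact ⟨p, haq, hp⟩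
  · left
    have h2 := hg.pos q
    exact ⟨g q, a - g q, dig_g hg hqV, dig_sub_top hg hd hq1 hq2, by omega, h, by omega⟩

/-- `0` and a removable element `a ≠ 1` may be removed together. -/
theorem remove_zero_and (hg : IsGAdic g) (hW : IsPartition W) {i k : Fin 2} (hki : k ≠ i)
    (hinf : ((W i)ᶜ).Infinite) (hC : CC g (W i)) {a : ℕ} (ha : a ≠ 0) (ha1 : a ≠ 1)
    (hd : Dig g (W i) a)
    (hineq : ∀ J, wt g (W i)ᶜ J + a % g J ≤ 2 * wt g (W i) J) :
    IsAsympBasis 2 (base g W \ {0, a}) := by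
  obtain ⟨N, hN⟩ := rep_large hg hinf hd hineq a
  have hmemi : ∀ x, Dig g (W i) x → x ≠ 0 → x ≠ a → x ∈ base g W \ {0, a} := by
    intro x hx hx0 hxa
    refine ⟨(mem_base_iff hg (by norm_num) W x).2 ⟨i, hx⟩, ?_⟩
    rintro (h1 | h1)
    · exact hx0 h1
    · exact hxa h1
  have hmemk : ∀ x, Dig g (W k) x → x ≠ 0 → x ∈ base g W \ {0, a} := by
    intro x hx hx0
    refine ⟨(mem_base_iff hg (by norm_num) W x).2 ⟨k, hx⟩, ?_⟩
    rintro (h1 | h1)
    · exact hx0 h1
    · rw [Set.mem_singleton_iff] at h1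
      rw [h1] at hx
      exact ha (dig_disj hg (hW.disj k i hki) hx hd)
  have hk : ∀ p, p ∉ W i → p ∈ W k := by
    intro p hp
    rw [compl_eq hW hki]; exact hp
  have hga := hg.self_le a
  refine ⟨N + g (a + 2), fun n hn => ?_⟩
  have hga2 : 0 < g (a + 2) := hg.pos _
  obtain ⟨x, y, hx, hy, hxy⟩ := canonical_two hg hW hki n
  have hyc : Dig g (W i)ᶜ y := by rw [← compl_eq hW hki]; exact hy
  have hn0 : n ≠ 0 := by omega
  obtain ⟨t, ht1, ht2⟩ := exists_top hg hn0
  have hta : a + 2 ≤ t := by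
    by_contra hcon
    have : g (t + 1) ≤ g (a + 2) := hg.mono.monotone (by omega)
    omega
  obtain ⟨u, rfl⟩ : ∃ u, t = u + 1 := ⟨t - 1, by omega⟩
  have hgu : a < g u := hga.trans_le (hg.mono.monotone (by omega))
  have h2u := two_mul_le hg u
  by_cases hx0 : x = 0
  · -- `n` is supported in the other part
    have hnk : Dig g (W k) n := by rw [hxy, hx0, zero_add]; exact hy
    have htk := top_mem hg hnk ht1 ht2
    have hti : u + 1 ∉ W i := fun h => Set.disjoint_left.1 (hW.disj k i hki) htk h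
    by_cases hr : n - g (u + 1) = 0
    · have hu : u ∈ W i := by
        have := (hC (u + 1) hti).2.2
        simpa using this
      refine hfold_two (x := g (u + 1) - g u) (y := g u) (hmemi _ (dig_g_sub hg hu) (by omega)
        (by omega)) (hmemi _ (dig_g hg hu) (by omega) (by omega)) (by omega)
    · exact hfold_two (x := g (u + 1)) (y := n - g (u + 1)) (hmemk _ (dig_g hg htk) (by omega))
        (hmemk _ (dig_sub_top hg hnk ht1 ht2) hr) (by omega)
  · by_cases hy0 : y = 0
    · have hni : Dig g (W i) n := by rw [hxy, hy0, add_zero]; exact hx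
      have hti := top_mem hg hni ht1 ht2
      have hrest := dig_sub_top hg hni ht1 ht2
      by_cases hr : n - g (u + 1) = 0
      · by_cases hu : u ∈ W i
        · exact hfold_two (x := g (u + 1) - g u) (y := g u) (hmemi _ (dig_g_sub hg hu) (by omega)
            (by omega)) (hmemi _ (dig_g hg hu) (by omega) (by omega)) (by omega)
        · exact hfold_two (x := g (u + 1) - g u) (y := g u)
            (hmemk _ (dig_g_sub hg (hk u hu)) (by omega)) (hmemk _ (dig_g hg (hk u hu)) (by omega))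
            (by omega)
      · by_cases hra : n - g (u + 1) = a
        · rcases dichotomy hg hd ha ha1 with ⟨v, w, hv, hw, hv0, hw0, hvw⟩ | ⟨p, hap, hp⟩
          · exact hfold_two (x := g (u + 1) + v) (y := w)
              (hmemi _ (dig_add_top hg hti hv (by omega)) (by omega) (by omega))
              (hmemi _ hw hw0 (by omega)) (by omega)
          · have h2p := (hC p hp).1
            by_cases hu : u ∈ W i
            · exact hfold_two (x := g (u + 1) - g u) (y := g u + a)
                (hmemi _ (dig_g_sub hg hu) (by omega) (by omega))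
                (hmemi _ (dig_add_top hg hu hd hgu) (by omega) (by omega)) (by omega)
            · have h2u' := (hC u hu).1
              have hpos := hg.pos p
              have hdd : Dig g (W k) (g u + g p) :=
                dig_add_top hg (hk u hu) (dig_g hg (hk p hp)) (by omega)
              exact hfold_two (x := g u + g p) (y := g u + g p) (hmemk _ hdd (by omega))
                (hmemk _ hdd (by omega)) (by omega)
        · exact hfold_two (x := g (u + 1)) (y := n - g (u + 1)) (hmemi _ (dig_g hg hti) (by omega)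
            (by omega)) (hmemi _ hrest hr hra) (by omega)
    · by_cases hxa : x = a
      · obtain ⟨v, w, hv, hw, hv1, hw1, hvw⟩ := hN n y (by omega) hyc (by rw [hxy, hxa])
        exact hfold_two (hmemi v hv (by omega) (by omega)) (hmemi w hw (by omega) (by omega)) hvw
      · exact hfold_two (hmemi x hx hx0 hxa) (hmemk y hy hy0) hxy

/-- `0` and `1` can never be removed together. -/
theorem not_zero_one (hg : IsGAdic g) (hW : IsPartition W) {i k : Fin 2} (hki : k ≠ i)
    (h0 : 0 ∈ W i) (hinf : (W i).Infinite) (hinf' : ((W i)ᶜ).Infinite) :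
    ¬ IsAsympBasis 2 (base g W \ {0, 1}) := by
  classical
  rintro ⟨N, hN⟩
  obtain ⟨u0, hu0, hNu⟩ := hinf'.exists_gt N
  have hex : ∃ m, u0 < m ∧ m ∈ W i := by
    obtain ⟨m, hm, hum⟩ := hinf.exists_gt u0
    exact ⟨m, hum, hm⟩
  obtain ⟨ht1, ht2⟩ := Nat.find_spec hex
  set t := Nat.find hex with ht
  obtain ⟨u, hu⟩ : ∃ u, t = u + 1 := ⟨t - 1, by omega⟩
  have hui : u ∉ W i := by
    intro hcon
    by_cases h1 : u = u0
    · rw [h1] at hcon; exact hu0 hcon
    · exact Nat.find_min hex (m := u) (by omega) ⟨by omega, hcon⟩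
  have hgt : t < g t := hg.self_le t
  have h2u := two_mul_le hg u
  rw [hu] at ht2 hgt
  obtain ⟨b, hb, hnb⟩ := hN (g (u + 1) + 1) (by omega)
  rw [Fin.sum_univ_two] at hnb
  have hd1 : Dig g (W i) 1 := by
    have := dig_g hg h0
    rwa [hg.zero] at this
  have hdn : Dig g (W i) (g (u + 1) + 1) := dig_add_top hg ht2 hd1 (by omega)
  have hne : ∀ l, b l ≠ 0 ∧ b l ≠ 1 := by
    intro l
    have := (hb l).2
    constructor
    · intro h1; exact this (by rw [h1]; exact Set.mem_insert _ _)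
    · intro h1; exact this (by rw [h1]; exact Set.mem_insert_of_mem _ (Set.mem_singleton _))
  obtain ⟨c0, hc0⟩ := (mem_base_iff hg (by norm_num) W _).1 (hb 0).1
  obtain ⟨c1, hc1⟩ := (mem_base_iff hg (by norm_num) W _).1 (hb 1).1
  have hck := compl_eq hW hki
  have hn0 := hne 0
  have hn1 := hne 1
  by_cases e0 : c0 = i
  · by_cases e1 : c1 = i
    · rw [e0] at hc0
      rw [e1] at hc1
      have hx : b 0 < g (u + 1) := by omega
      have hy : b 1 < g (u + 1) := by omega
      have hx' := hc0 u hui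
      have hy' := hc1 u hui
      rw [Nat.mod_eq_of_lt hx] at hx'
      rw [Nat.mod_eq_of_lt hy] at hy'
      have h3 := Nat.mod_lt (b 0) (hg.pos u)
      have h4 := Nat.mod_lt (b 1) (hg.pos u)
      omega
    · have e1' : c1 = k := by omega
      rw [e0] at hc0
      rw [e1', hck] at hc1
      have h5 := unique_part hg hc0 hc1 hdn (dig_zero (g := g) (W i)ᶜ) (by omega)
      omega
  · have e0' : c0 = k := by omega
    by_cases e1 : c1 = i
    · rw [e0', hck] at hc0
      rw [e1] at hc1
      have h5 := unique_part hg hc1 hc0 hdn (dig_zero (g := g) (W i)ᶜ) (by omega)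
      omega
    · have e1' : c1 = k := by omega
      rw [e0', hck] at hc0
      rw [e1', hck] at hc1
      have h6 := hc0 0 (by simpa using h0)
      have h7 := hc1 0 (by simpa using h0)
      rw [hg.zero, Nat.mod_one, zero_add] at h6 h7
      have h8 : (g (u + 1) + 1) % g 1 = 0 := by
        rw [hnb, Nat.add_mod, h6, h7]
        simp
      have h9 : (g (u + 1) + 1) % g 1 = 1 % g 1 := by
        obtain ⟨v, hv⟩ := hg.dvd_of_le (show 1 ≤ u + 1 by omega)
        rw [hv, add_comm, Nat.add_mul_mod_self_left]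
      have h10 := two_mul_le hg 0
      rw [hg.zero, zero_add] at h10
      rw [h9, Nat.mod_eq_of_lt (by omega)] at h8
      omega

end Two

end R730.Gad
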