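import Pool.Agent.R730.Gad.TwoMin

/-!
# The structure of the exceptional partitions
-/

open Finset

namespace R730.Gad

variable {g : ℕ → ℕ}

/-- The removability condition in run form. -/
def RR (g : ℕ → ℕ) (V : Set ℕ) (a : ℕ) : Prop :=
  ∀ j, j ∉ V → g (j + 1) = 2 * g j ∧ ¬ maxrun g V a j

/-- A witness in the last position below `j`. -/
theorem not_maxrun_last {V : Set ℕ} {a j : ℕ} (hj : 1 ≤ j) (hV : j - 1 ∈ V)
    (hd : digit g a (j - 1) ≠ g (j - 1 + 1) / g (j - 1) - 1) : ¬ maxrun g V a j := by
  obtain ⟨m, rfl⟩ : ∃ m, j = m + 1 := ⟨j - 1, by omega⟩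
  rw [Nat.add_sub_cancel] at hV hd
  rw [maxrun, not_or, not_and]
  exact ⟨fun h => h hV, fun _ => hd⟩

/-- `g_q` is removable for a long position `q`. -/
theorem RR_g (hg : IsGAdic g) {V : Set ℕ} (hC : CC g V) {q : ℕ}
    (hlong : q + 1 ∈ V ∨ g (q + 1) ≠ 2 * g q) : RR g V (g q) := by
  intro j hj
  obtain ⟨h1, h2, h3⟩ := hC j hj
  refine ⟨h1, not_maxrun_last h2 h3 ?_⟩
  by_cases hjq : j - 1 = q
  · have hj' : j = q + 1 := by omega
    rw [hjq, digit_g_self hg]
    rcases hlong with hl | hl
    · rw [hj'] at hj; exact absurd hl hj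
    · intro hcon
      have h4 := ratio_ge hg q
      have h5 : g (q + 1) / g q = 2 := by omega
      apply hl
      rw [← Nat.div_mul_cancel (hg.dvd q), h5]
  · rw [digit_g_ne hg hjq]
    have := ratio_ge hg (j - 1)
    omega

/-- If no element outside `{0,1}` is removable then the partition is the parity partition. -/
theorem structure_of (hg : IsGAdic g) {V : Set ℕ} (h0 : 0 ∈ V) (hC : CC g V)
    (hno : ∀ a, a ≠ 0 → a ≠ 1 → Dig g V a → ¬ RR g V a) :
    V = {n | Even n} ∧ (∀ j, 1 ≤ j → g (j + 1) = 2 * g j) ∧ g 1 ≤ 3 := by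
  have hgq : ∀ q, 1 ≤ q → g q ≠ 0 ∧ g q ≠ 1 := by
    intro q hq
    have h1 := hg.self_le q
    have h2 := hg.zero
    have h3 : g 0 < g q := hg.mono (by omega)
    omega
  have hA : ∀ q, 1 ≤ q → q ∈ V → q + 1 ∉ V ∧ g (q + 1) = 2 * g q := by
    intro q hq hqV
    by_contra hcon
    apply hno (g q) (hgq q hq).1 (hgq q hq).2 (dig_g hg hqV)
    apply RR_g hg hC
    by_cases h : q + 1 ∈ V
    · left; exact h
    · right; intro h'; exact hcon ⟨h, h'⟩
  have h1V : 1 ∉ V := by
    intro h1
    apply hno (g 1) (hgq 1 le_rfl).1 (hgq 1 le_rfl).2 (dig_g hg h1)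
    intro j hj
    obtain ⟨e1, e2, e3⟩ := hC j hj
    refine ⟨e1, ?_⟩
    by_cases hj1 : j - 1 = 1
    · have hj2 : j = 2 := by omega
      rw [hj2, not_maxrun_iff hg]
      refine ⟨0, by norm_num, ?_, ?_⟩
      · intro r _ hr
        interval_cases r
        · exact h0
        · exact h1
      · rw [digit_g_ne hg (by norm_num)]
        have := ratio_ge hg 0
        omega
    · apply not_maxrun_last e2 e3
      rw [digit_g_ne hg hj1]
      have := ratio_ge hg (j - 1)
      omega
  have hg1 : g 1 ≤ 3 := by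
    by_contra hcon
    have hd2 : Dig g V 2 := by
      intro J hJ
      have hJ0 : J ≠ 0 := fun h => hJ (h ▸ h0)
      have h1 : g 1 ≤ g J := hg.mono.monotone (by omega)
      have h2 := hg.lt_succ J
      rw [Nat.mod_eq_of_lt (by omega), Nat.mod_eq_of_lt (by omega)]
    apply hno 2 (by norm_num) (by norm_num) hd2
    intro j hj
    obtain ⟨e1, e2, e3⟩ := hC j hj
    refine ⟨e1, not_maxrun_last e2 e3 ?_⟩
    by_cases hj1 : j - 1 = 0
    · rw [hj1]
      unfold digit
      rw [zero_add, hg.zero, Nat.div_one, Nat.div_one, Nat.mod_eq_of_lt (by omega)]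
      omega
    · have h1 : g 1 ≤ g (j - 1) := hg.mono.monotone (by omega)
      have h2 := hg.lt_succ (j - 1)
      unfold digit
      rw [Nat.mod_eq_of_lt (by omega), Nat.div_eq_of_lt (by omega)]
      have := ratio_ge hg (j - 1)
      omega
  have hstep : ∀ n, n + 1 ∈ V ↔ n ∉ V := by
    intro n
    constructor
    · intro hn1 hn
      by_cases hn0 : n = 0
      · rw [hn0] at hn1; exact h1V hn1
      · exact (hA n (by omega) hn).1 hn1
    · intro hn
      by_contra hn1
      have := (hC (n + 1) hn1).2.2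
      rw [Nat.add_sub_cancel] at this
      exact hn this
  have hV : ∀ n, n ∈ V ↔ Even n := by
    intro n
    induction n with
    | zero => simp [h0]
    | succ m ih =>
      rw [hstep m, ih, Nat.even_add_one]
  refine ⟨Set.ext hV, ?_, hg1⟩
  intro j hj
  by_cases hjV : j ∈ V
  · exact (hA j hj hjV).2
  · exact (hC j hjV).1

/-- For the parity partition no element outside `{0,1}` is removable. -/
theorem even_no (hg : IsGAdic g) (hr : ∀ j, 1 ≤ j → g (j + 1) = 2 * g j) (hg1 : g 1 ≤ 3)
    {a : ℕ} (hd : Dig g {n | Even n} a) (hR : RR g {n | Even n} a) : a ≤ 1 := by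
  have hdig : ∀ m, Even m → digit g a m < g (m + 1) / g m - 1 := by
    intro m hm
    have hodd : m + 1 ∉ ({n | Even n} : Set ℕ) := by
      intro h
      rw [Set.mem_setOf_eq, Nat.even_add_one] at h
      exact h hm
    have h1 := (hR (m + 1) hodd).2
    rw [maxrun, not_or, not_and] at h1
    have h2 := h1.2
    have hmax : maxrun g {n | Even n} a m := by
      cases m with
      | zero => trivial
      | succ p =>
        rw [maxrun]
        left
        intro hp
        rw [Set.mem_setOf_eq] at hp
        rw [Nat.even_add_one] at hm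
        exact hm hp
    have h3 := digit_lt hg a m
    exact lt_of_le_of_ne h3 (h2 hmax)
  have key : ∀ J, a % g J ≤ 1 := by
    intro J
    induction J with
    | zero => rw [hg.zero, Nat.mod_one]; norm_num
    | succ m ih =>
      by_cases hm : Even m
      · have h1 := hdig m hm
        rw [digit_step hg]
        cases m with
        | zero =>
          rw [zero_add, hg.zero, Nat.div_one] at h1
          rw [hg.zero, Nat.mod_one, mul_one, zero_add]
          omega
        | succ p =>
          have h2 := hr (p + 1) (by omega)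
          have h3 : g (p + 1 + 1) / g (p + 1) = 2 := by
            rw [h2, Nat.mul_div_cancel _ (hg.pos _)]
          rw [h3] at h1
          have h4 : digit g a (p + 1) = 0 := by omega
          rw [h4, zero_mul, add_zero]
          exact ih
      · rw [hd m (by simpa using hm)]
        exact ih
  have := key a
  rwa [Nat.mod_eq_of_lt (hg.self_le a)] at this

theorem RR_one (hg : IsGAdic g) (hr : ∀ j, 1 ≤ j → g (j + 1) = 2 * g j) (hg1 : g 1 = 3) :
    RR g {n | Even n} 1 := by
  intro j hj
  have hj' : ¬ Even j := hj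
  have hj0 : j ≠ 0 := by rintro rfl; exact hj' (by simp)
  refine ⟨hr j (by omega), not_maxrun_last (by omega) ?_ ?_⟩
  · rw [Set.mem_setOf_eq]
    by_contra hcon
    apply hj'
    have : j = (j - 1) + 1 := by omega
    rw [this, Nat.even_add_one]
    exact hcon
  · by_cases hj1 : j - 1 = 0
    · rw [hj1]
      unfold digit
      rw [zero_add, hg.zero, Nat.div_one, Nat.div_one, hg1]
      norm_num
    · have h1 := digit_g_ne hg (q := 0) (m := j - 1) hj1
      rw [hg.zero] at h1
      rw [h1]
      have := ratio_ge hg (j - 1)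
      omega

theorem one_g1 (hg : IsGAdic g) {V : Set ℕ} (h1V : 1 ∉ V) (hR : RR g V 1) : 3 ≤ g 1 := by
  have h1 := (hR 1 h1V).2
  rw [not_maxrun_iff hg] at h1
  obtain ⟨q, hq, _, hqd⟩ := h1
  have hq0 : q = 0 := by omega
  subst hq0
  unfold digit at hqd
  rw [zero_add, hg.zero, Nat.div_one, Nat.div_one] at hqd
  have h2 := two_mul_le hg 0
  rw [hg.zero, zero_add] at h2
  rw [Nat.mod_eq_of_lt (by omega)] at hqd
  omega

end R730.Gad
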